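import Pool.Agent.Q107.MG.Prob

/-!
# Bounds for the probabilities of gap events
-/

set_option autoImplicit false

namespace Pool.Agent.Q107.MG

open Finset MeasureTheory ProbabilityTheory Filter Pool.Agent.Q120.GM

variable {Ω : Type*} [MeasurableSpace Ω] {μ : Measure Ω} [IsProbabilityMeasure μ] {A : Ω → Set ℕ}

theorem one_sub_ge {s : ℝ} (h0 : 0 ≤ s) (h1 : s ≤ 1 / 2) : Real.exp (-(s + s ^ 2)) ≤ 1 - s := by
  have h2 := Real.quadratic_le_exp_of_nonneg (show 0 ≤ s + s ^ 2 by positivity)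
  rw [Real.exp_neg, inv_le_comm₀ (Real.exp_pos _) (by linarith)]
  refine le_trans ?_ h2
  rw [inv_le_iff_one_le_mul₀ (by linarith)]
  have h3 : 0 ≤ s ^ 2 * (1 - s - s ^ 2 - s ^ 3) := by
    apply mul_nonneg (sq_nonneg _)
    nlinarith [mul_nonneg h0 h0, mul_nonneg h0 (mul_nonneg h0 h0)]
  nlinarith

theorem prod_ge {Q : ℕ} (hQ : 1 ≤ Q) {x0 : ℝ} (hx : 1 ≤ Real.log x0) (hx2 : 2 * qq Q ≤ Real.log x0) (hx0 : 0 < x0)
    {n t : ℕ} (hn : x0 ≤ n) :
    Real.exp (-(((t : ℝ) + Q) * (1 / Real.log x0 + qq Q / Real.log x0 ^ 2))) ≤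
      ∏ m ∈ Ioo n (n + t), (1 - level Q m) := by
  have hq := qq_pos hQ
  obtain ⟨s, hs⟩ : ∃ s : ℝ, s = qq Q / Real.log x0 := ⟨_, rfl⟩
  have hs0 : 0 ≤ s := by rw [hs]; positivity
  have hs1 : s ≤ 1 / 2 := by
    rw [hs, div_le_iff₀ (by linarith)]
    linarith
  have h1 : ∏ m ∈ (Ioo n (n + t)).filter (fun m => m.Coprime Q), (1 - level Q m) =
      ∏ m ∈ Ioo n (n + t), (1 - level Q m) := by
    apply prod_filter_of_ne
    intro m _ hne
    by_contra hcon
    apply hne
    unfold level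
    rw [if_neg hcon]
    ring
  rw [← h1]
  have h2 : ∏ m ∈ (Ioo n (n + t)).filter (fun m => m.Coprime Q), Real.exp (-(s + s ^ 2)) ≤
      ∏ m ∈ (Ioo n (n + t)).filter (fun m => m.Coprime Q), (1 - level Q m) := by
    apply Finset.prod_le_prod
    · intro m _
      exact (Real.exp_pos _).le
    · intro m hm
      rw [mem_filter, mem_Ioo] at hm
      refine (one_sub_ge hs0 hs1).trans ?_
      have : level Q m ≤ s := by
        rw [hs]
        refine level_le (by linarith) hx0 (hn.trans ?_)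
        exact_mod_cast hm.1.1.le
      linarith
  refine le_trans ?_ h2
  rw [prod_const, ← Real.exp_nat_mul, Real.exp_le_exp]
  have h3 : ((((Ioo n (n + t)).filter (fun m => m.Coprime Q)).card : ℕ) : ℝ) ≤ ((t : ℝ) + Q) / qq Q := by
    have h4 : (Ioo n (n + t)).filter (fun m => m.Coprime Q) ⊆ (Ico n (n + t)).filter (Good Q {0}) := by
      intro m hm
      rw [mem_filter, mem_Ioo] at hm
      rw [mem_filter, mem_Ico, good_zero]
      exact ⟨⟨hm.1.1.le, hm.1.2⟩, hm.2⟩
    have h5 := (count_real hQ {0} n t).2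
    rw [sing0 hQ] at h5
    have h6 : ((((Ioo n (n + t)).filter (fun m => m.Coprime Q)).card : ℕ) : ℝ) ≤
        (((Ico n (n + t)).filter (Good Q {0})).card : ℝ) := by exact_mod_cast card_le_card h4
    refine h6.trans (h5.trans (le_of_eq ?_))
    ring
  have h4 : (((Ioo n (n + t)).filter (fun m => m.Coprime Q)).card : ℝ) * (s + s ^ 2) ≤
      ((t : ℝ) + Q) / qq Q * (s + s ^ 2) := mul_le_mul_of_nonneg_right h3 (by positivity)
  have h5 : ((t : ℝ) + Q) / qq Q * (s + s ^ 2) = ((t : ℝ) + Q) * (1 / Real.log x0 + qq Q / Real.log x0 ^ 2) := by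
    rw [hs]
    have : Real.log x0 ≠ 0 := by linarith
    field_simp
  rw [h5] at h4
  linarith

theorem le_gev {Q : ℕ} (hA : IsModel μ (level Q) A) (hQ : 1 ≤ Q) {x0 y : ℝ} (hx : 1 ≤ Real.log x0)
    (hx2 : 2 * qq Q ≤ Real.log x0) (hx0 : 0 < x0) {n t : ℕ} (ht : 1 ≤ t) (hn : x0 ≤ n) (hy : (n : ℝ) + t ≤ y)
    (hg : Good Q {0, t} n) :
    (qq Q / Real.log y) ^ 2 * Real.exp (-(((t : ℝ) + Q) * (1 / Real.log x0 + qq Q / Real.log x0 ^ 2))) ≤
      μ.real (gev A t n) := by
  rw [real_gev hA ht]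
  have hq := qq_pos hQ
  have hx3 : qq Q ≤ Real.log x0 := by linarith
  have ht0 : (0 : ℝ) ≤ t := Nat.cast_nonneg t
  have hxy : Real.log x0 ≤ Real.log y := Real.log_le_log hx0 (by linarith)
  have h1 : qq Q / Real.log y ≤ level Q n := le_level hx3 (by linarith) hx0 hn (by linarith) (by
    have := hg 0 (by simp)
    simpa using this)
  have h2 : qq Q / Real.log y ≤ level Q (n + t) := le_level hx3 (by linarith) hx0 (by push_cast; linarith)
    (by push_cast; linarith) (hg t (by simp))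
  have h3 : 0 ≤ qq Q / Real.log y := by
    apply div_nonneg hq.le
    linarith
  have h4 : (qq Q / Real.log y) ^ 2 ≤ level Q n * level Q (n + t) := by
    rw [sq]
    exact mul_le_mul h1 h2 h3 (h3.trans h1)
  exact mul_le_mul h4 (prod_ge hQ hx hx2 hx0 hn) (Real.exp_pos _).le
    (mul_nonneg (level_nonneg _ _) (level_nonneg _ _))

/-- `a` and `a + t` are consecutive elements of `S` -/
def Cons (S : Set ℕ) (t a : ℕ) : Prop := a ∈ S ∧ a + t ∈ S ∧ ∀ m, a < m → m < a + t → m ∉ S

/-- the number of `a ≤ x` such that `a, a + t` are consecutive elements of `S` -/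
noncomputable def occ (S : Set ℕ) (x t : ℕ) : ℕ := {a | a ≤ x ∧ Cons S t a}.ncard

theorem occ_fin (S : Set ℕ) (x t : ℕ) : {a | a ≤ x ∧ Cons S t a}.Finite :=
  (Set.finite_Iic x).subset (fun _ ha => ha.1)

theorem occ_mono {S : Set ℕ} {x y t : ℕ} (h : x ≤ y) : occ S x t ≤ occ S y t :=
  Set.ncard_le_ncard (fun _ ha => ⟨ha.1.trans h, ha.2⟩) (occ_fin S y t)

theorem mgf_ind {G : Set Ω} (hG : MeasurableSet G) :
    mgf (G.indicator (1 : Ω → ℝ)) μ (-1) = 1 - (1 - Real.exp (-1)) * μ.real G := by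
  unfold mgf
  have h1 : ∀ ω, Real.exp (-1 * G.indicator (1 : Ω → ℝ) ω) = 1 - (1 - Real.exp (-1)) * G.indicator (fun _ => (1 : ℝ)) ω := by
    intro ω
    by_cases h : ω ∈ G
    · rw [Set.indicator_of_mem h, Set.indicator_of_mem h]
      simp
    · rw [Set.indicator_of_notMem h, Set.indicator_of_notMem h]
      simp
  simp_rw [h1]
  have h2 : Integrable (G.indicator (fun _ => (1 : ℝ))) μ := (integrable_const 1).indicator hG
  rw [integral_sub (integrable_const _) (h2.const_mul _), integral_const_mul, integral_indicator_const _ hG]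
  simp

/-- the probability that a gap `t` occurs fewer than `K` times in `M` blocks -/
theorem few_le {p : ℕ → ℝ} (hA : IsModel μ p A) {Q : ℕ} (hQ : 1 ≤ Q) {t : ℕ} (hte : Even t) (ht : 1 ≤ t) {x0 M X : ℕ}
    (hX : x0 + M * (2 * t + Q) ≤ X) {g : ℝ} (hg0 : 0 ≤ g)
    (hg : ∀ n, x0 ≤ n → n + t < x0 + M * (2 * t + Q) → Good Q {0, t} n → g ≤ μ.real (gev A t n)) (K : ℕ) :
    μ.real {ω | occ (A ω) X t < K} ≤
      Real.exp (K - ((M : ℝ) * ((t : ℝ) + Q) / (8 * Q) * g)) := by
  classical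
  have hQ0 : (0 : ℝ) < Q := by exact_mod_cast hQ
  choose S hS1 hS2 hS3 hS4 using (fun j : ℕ => starts hQ hte ht (x0 + j * (2 * t + Q)))
  obtain ⟨G, hG⟩ : ∃ G : ℕ → Set Ω, G = fun j => ⋃ n ∈ S j, gev A t n := ⟨_, rfl⟩
  have hFmeas : ∀ j, MeasurableSet[F A (Set.Ico (x0 + j * (2 * t + Q)) (x0 + (j + 1) * (2 * t + Q)))] (G j) := by
    intro j
    rw [hG]
    refine Finset.measurableSet_biUnion _ (fun n hn => F_gev (fun m h1 h2 => ?_))
    have h3 := hS1 j hn
    rw [mem_Ico] at h3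
    have e1 : (j + 1) * (2 * t + Q) = j * (2 * t + Q) + 2 * t + Q := by ring
    rw [Set.mem_Ico]
    omega
  have hmeas : ∀ j, MeasurableSet (G j) := fun j => F_le hA _ _ (hFmeas j)
  have hprob : ∀ j ∈ range M, ((t : ℝ) + Q) / (4 * Q) * g ≤ μ.real (G j) := by
    intro j hj
    rw [mem_range] at hj
    have h1 : μ.real (G j) = ∑ n ∈ S j, μ.real (gev A t n) := by
      rw [hG]
      apply measureReal_biUnion_finset
      · intro n hn m hm hne
        rw [Function.onFun, Set.disjoint_left]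
        intro ω h1 h2
        rw [mem_gev] at h1 h2
        have h3 := hS3 j n hn m hm
        have h4 := hS3 j m hm n hn
        rcases lt_or_gt_of_ne hne with h5 | h5
        · exact h1.2.2 m h5 h3 h2.1
        · exact h2.2.2 n h5 h4 h1.1
      · intro n hn
        exact meas_gev hA t n
      · exact fun _ _ => measure_ne_top _ _
    rw [h1]
    have h2 : ∀ n ∈ S j, g ≤ μ.real (gev A t n) := by
      intro n hn
      have h3 := hS1 j hn
      rw [mem_Ico] at h3
      have e1 : (j + 1) * (2 * t + Q) ≤ M * (2 * t + Q) := Nat.mul_le_mul_right _ (by omega)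
      have e2 : (j + 1) * (2 * t + Q) = j * (2 * t + Q) + 2 * t + Q := by ring
      have e3 : 0 ≤ j * (2 * t + Q) := Nat.zero_le _
      exact hg n (by omega) (by omega) (hS2 j n hn)
    have h3 := sum_le_sum h2
    rw [sum_const, nsmul_eq_mul] at h3
    refine le_trans ?_ h3
    apply mul_le_mul_of_nonneg_right _ hg0
    rw [div_le_iff₀ (by positivity)]
    have h4 : ((t + Q : ℕ) : ℝ) ≤ ((4 * Q * (S j).card : ℕ) : ℝ) := by exact_mod_cast hS4 j
    push_cast at h4
    linarith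
  have hdisj : ∀ i j : ℕ, i ≠ j → Disjoint (Set.Ico (x0 + i * (2 * t + Q)) (x0 + (i + 1) * (2 * t + Q)))
      (Set.Ico (x0 + j * (2 * t + Q)) (x0 + (j + 1) * (2 * t + Q))) := by
    intro i j hne
    rw [Set.disjoint_left]
    intro a ha hb
    rw [Set.mem_Ico] at ha hb
    rcases lt_or_gt_of_ne hne with h5 | h5
    · have e1 : (i + 1) * (2 * t + Q) ≤ j * (2 * t + Q) := Nat.mul_le_mul_right _ (by omega)
      omega
    · have e1 : (j + 1) * (2 * t + Q) ≤ i * (2 * t + Q) := Nat.mul_le_mul_right _ (by omega)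
      omega
  have hind : iIndepSet G μ := by
    rw [iIndepSet_iff_meas_biInter hmeas]
    intro s
    have h1 := indep_many hA s (fun j => Set.Ico (x0 + j * (2 * t + Q)) (x0 + (j + 1) * (2 * t + Q)))
      (fun i _ j _ hne => hdisj i j hne) G (fun j _ => hFmeas j)
    rw [← ofReal_measureReal (measure_ne_top _ _), h1, ENNReal.ofReal_prod_of_nonneg (fun _ _ => measureReal_nonneg)]
    exact prod_congr rfl (fun i _ => ofReal_measureReal (measure_ne_top _ _))
  obtain ⟨Y, hY⟩ : ∃ Y : ℕ → Ω → ℝ, Y = fun j => (G j).indicator (1 : Ω → ℝ) := ⟨_, rfl⟩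
  have hYm : ∀ j, Measurable (Y j) := fun j => by rw [hY]; exact measurable_one.indicator (hmeas j)
  have hYind : iIndepFun Y μ := by
    rw [hY]
    exact hind.iIndepFun_indicator
  -- the number of good blocks is a lower bound
  have hle : ∀ ω, (∑ j ∈ range M, Y j) ω ≤ occ (A ω) X t := by
    intro ω
    rw [Finset.sum_apply]
    have h1 : ∑ j ∈ range M, Y j ω = (((range M).filter (fun j => ω ∈ G j)).card : ℝ) := by
      rw [card_filter]
      push_cast
      refine sum_congr rfl (fun j _ => ?_)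
      rw [hY]
      by_cases h : ω ∈ G j
      · simp only [Set.indicator_of_mem h, if_pos h, Pi.one_apply]
      · simp only [Set.indicator_of_notMem h, if_neg h]
    rw [h1]
    have h2 : ∀ j, ω ∈ G j → ∃ n, n ∈ S j ∧ ω ∈ gev A t n := by
      intro j hj
      rw [hG, Set.mem_iUnion₂] at hj
      obtain ⟨n, hn, h3⟩ := hj
      exact ⟨n, hn, h3⟩
    choose! a ha using h2
    have h3 : ((((range M).filter (fun j => ω ∈ G j)).image a : Finset ℕ) : Set ℕ) ⊆ {a | a ≤ X ∧ Cons (A ω) t a} := by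
      intro m hm
      rw [mem_coe, mem_image] at hm
      obtain ⟨j, hj, rfl⟩ := hm
      rw [mem_filter, mem_range] at hj
      obtain ⟨h4, h5⟩ := ha j hj.2
      have h6 := hS1 j h4
      rw [mem_Ico] at h6
      have e1 : (j + 1) * (2 * t + Q) ≤ M * (2 * t + Q) := Nat.mul_le_mul_right _ (by omega)
      have e2 : (j + 1) * (2 * t + Q) = j * (2 * t + Q) + 2 * t + Q := by ring
      rw [mem_gev] at h5
      exact ⟨by omega, h5⟩
    have h4 := Set.ncard_le_ncard h3 (occ_fin _ _ _)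
    rw [Set.ncard_coe_finset, card_image_of_injOn] at h4
    · exact_mod_cast h4
    · intro i hi j hj heq
      rw [mem_coe, mem_filter] at hi hj
      have h5 := hS1 i (ha i hi.2).1
      have h6 := hS1 j (ha j hj.2).1
      rw [mem_Ico] at h5 h6
      by_contra hne
      rcases lt_or_gt_of_ne hne with h7 | h7
      · have e1 : (i + 1) * (2 * t + Q) ≤ j * (2 * t + Q) := Nat.mul_le_mul_right _ (by omega)
        have e2 : (i + 1) * (2 * t + Q) = i * (2 * t + Q) + 2 * t + Q := by ring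
        omega
      · have e1 : (j + 1) * (2 * t + Q) ≤ i * (2 * t + Q) := Nat.mul_le_mul_right _ (by omega)
        have e2 : (j + 1) * (2 * t + Q) = j * (2 * t + Q) + 2 * t + Q := by ring
        omega
  have hsub : {ω | occ (A ω) X t < K} ⊆ {ω | (∑ j ∈ range M, Y j) ω ≤ K} := by
    intro ω hω
    have hω' : occ (A ω) X t < K := hω
    have h1 : ((occ (A ω) X t : ℕ) : ℝ) ≤ K := by exact_mod_cast hω'.le
    exact (hle ω).trans h1
  refine (measureReal_mono hsub).trans ?_
  have hint : Integrable (fun ω => Real.exp (-1 * (∑ j ∈ range M, Y j) ω)) μ := by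
    refine Integrable.of_bound (C := 1) ?_ (Eventually.of_forall (fun ω => ?_))
    · have e : (∑ j ∈ range M, Y j) = fun ω => ∑ j ∈ range M, Y j ω := by
        funext ω
        rw [Finset.sum_apply]
      have h1 : Measurable (∑ j ∈ range M, Y j) := by
        rw [e]
        exact Finset.measurable_sum (range M) (fun j _ => hYm j)
      exact (h1.const_mul _).exp.aestronglyMeasurable
    · rw [Real.norm_eq_abs, abs_of_pos (Real.exp_pos _), Real.exp_le_one_iff]
      have h1 : 0 ≤ (∑ j ∈ range M, Y j) ω := by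
        rw [Finset.sum_apply]
        refine sum_nonneg (fun j _ => ?_)
        rw [hY]
        exact Set.indicator_nonneg (fun _ _ => zero_le_one) _
      linarith
  refine (measure_le_le_exp_mul_mgf (μ := μ) (X := ∑ j ∈ range M, Y j) (t := -1) (K : ℝ) (by norm_num) hint).trans ?_
  rw [hYind.mgf_sum hYm]
  have h1 : ∀ j ∈ range M, mgf (Y j) μ (-1) ≤ Real.exp (-(((t : ℝ) + Q) / (8 * Q) * g)) := by
    intro j hj
    rw [hY]
    simp only
    rw [mgf_ind (hmeas j)]
    have h2 := hprob j hj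
    have h3 : Real.exp (-1) ≤ 1 / 2 := by
      rw [Real.exp_neg, inv_le_comm₀ (Real.exp_pos _) (by norm_num)]
      have := Real.exp_one_gt_d9
      norm_num
      linarith
    have h4 : ((t : ℝ) + Q) / (8 * Q) * g ≤ (1 - Real.exp (-1)) * μ.real (G j) := by
      have h5 : ((t : ℝ) + Q) / (8 * Q) * g = 1 / 2 * (((t : ℝ) + Q) / (4 * Q) * g) := by
        field_simp
        ring
      rw [h5]
      exact mul_le_mul (by linarith) h2 (by positivity) (by linarith)
    refine (Real.one_sub_le_exp_neg _).trans ?_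
    rw [Real.exp_le_exp]
    linarith
  refine (mul_le_mul_of_nonneg_left (Finset.prod_le_prod (fun _ _ => mgf_nonneg) h1) (Real.exp_pos _).le).trans ?_
  rw [prod_const, card_range, ← Real.exp_nat_mul, ← Real.exp_add, Real.exp_le_exp]
  apply le_of_eq
  ring

/-- upper bound for the product -/
theorem prod_le {Q : ℕ} (hQ : 1 ≤ Q) {m0 n h : ℕ} {X : ℝ} (hm0 : qq Q ≤ Real.log m0) (hm1 : 1 ≤ Real.log m0)
    (hm2 : 1 ≤ m0) (hh : m0 ≤ h) (hn : (n : ℝ) ≤ X) :
    ∏ m ∈ Ioc n (n + h), (1 - level Q m) ≤ Real.exp (-(((h : ℝ) - m0 - Q) / Real.log (X + h))) := by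
  have hq := qq_pos hQ
  have hm2' : (0 : ℝ) < m0 := by exact_mod_cast hm2
  have hh' : (m0 : ℝ) ≤ h := by exact_mod_cast hh
  have hn0 : (0 : ℝ) ≤ n := Nat.cast_nonneg n
  have hl : Real.log m0 ≤ Real.log (X + h) := Real.log_le_log hm2' (by linarith)
  have h1 : ∀ m ∈ Ioc n (n + h), (1 - level Q m) ≤ Real.exp (-(level Q m)) := fun m _ =>
    Real.one_sub_le_exp_neg _
  refine (Finset.prod_le_prod (fun m _ => by have := level_le_one Q m; linarith) h1).trans ?_
  rw [← Real.exp_sum, Real.exp_le_exp, sum_neg_distrib, neg_le_neg_iff]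
  obtain ⟨w, hw⟩ : ∃ w, h = m0 + w := ⟨h - m0, by omega⟩
  have h2 : ∑ m ∈ (Ico (n + m0) (n + m0 + w)).filter (Good Q {0}), level Q m ≤ ∑ m ∈ Ioc n (n + h), level Q m := by
    apply sum_le_sum_of_subset_of_nonneg
    · intro m hm
      rw [mem_filter, mem_Ico] at hm
      rw [mem_Ioc]
      omega
    · intro m _ _
      exact level_nonneg Q m
  refine le_trans ?_ h2
  have h3 : ∀ m ∈ (Ico (n + m0) (n + m0 + w)).filter (Good Q {0}), qq Q / Real.log (X + h) ≤ level Q m := by
    intro m hm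
    rw [mem_filter, mem_Ico, good_zero] at hm
    refine le_level hm0 (by linarith) hm2' ?_ ?_ hm.2
    · exact_mod_cast (by omega : m0 ≤ m)
    · have : (m : ℝ) ≤ (n + h : ℕ) := by exact_mod_cast (by omega : m ≤ n + h)
      push_cast at this
      linarith
  refine le_trans ?_ (sum_le_sum h3)
  rw [sum_const, nsmul_eq_mul]
  have h4 := (count_real hQ {0} (n + m0) w).1
  rw [sing0 hQ] at h4
  have h5 : (0 : ℝ) ≤ qq Q / Real.log (X + h) := by
    apply div_nonneg hq.le
    linarith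
  refine le_trans (le_of_eq ?_) (mul_le_mul_of_nonneg_right h4 h5)
  rw [hw]
  push_cast
  field_simp
  ring

theorem fev_le {Q : ℕ} (hA : IsModel μ (level Q) A) (hQ : 1 ≤ Q) {m0 n h : ℕ} {X : ℝ} (hm0 : qq Q ≤ Real.log m0)
    (hm1 : 1 ≤ Real.log m0) (hm2 : 1 ≤ m0) (hh : m0 ≤ h) (hn : (n : ℝ) ≤ X) :
    μ.real (fev A h n) ≤ level Q n * Real.exp (-(((h : ℝ) - m0 - Q) / Real.log (X + h))) := by
  rw [real_fev hA]
  exact mul_le_mul_of_nonneg_left (prod_le hQ hm0 hm1 hm2 hh hn) (level_nonneg _ _)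

end Pool.Agent.Q107.MG
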