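import Pool.Agent.Q107.MG.Up

/-!
# The least even number which is a gap fewer than `K` times
-/

set_option autoImplicit false

namespace Pool.Agent.Q107.MG

open Finset MeasureTheory ProbabilityTheory Filter Pool.Agent.Q120.GM Pool.Agent.Q120.NC

variable {Ω : Type*} [MeasurableSpace Ω] {μ : Measure Ω} [IsProbabilityMeasure μ] {A : Ω → Set ℕ}

/-- the least positive even `t` which is fewer than `K` times a gap `a, a + t` with `a ≤ x` -/
noncomputable def rK (S : Set ℕ) (K x : ℕ) : ℕ := sInf {t | 0 < t ∧ Even t ∧ occ S x t < K}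

theorem rK_law {Q : ℕ} (hA : IsModel μ (level Q) A) (hQ : 1 ≤ Q) :
    ∀ᵐ ω ∂μ, ∀ e : ℝ, 0 < e → ∀ᶠ x : ℕ in atTop, ∀ K : ℕ, 1 ≤ K → (K : ℝ) ≤ x / Real.log x ^ 3 →
      |(rK (A ω) K x : ℝ) - (Real.log x * Real.log (x / K) - 2 * (Real.log x * Real.log (Real.log x)))| ≤
        e * (Real.log x * Real.log (Real.log x)) := by
  have h1 : ∀ᵐ ω ∂μ, ∀ j : ℕ, ∀ᶠ x : ℕ in atTop, ∀ K : ℕ, 1 ≤ K → ∀ t : ℕ, Even t → 1 ≤ t →
      (t : ℝ) ≤ ps (2 + 1 / ((j : ℝ) + 1)) (Real.log K) (Real.log x) → K ≤ occ (A ω) x t :=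
    ae_all_iff.2 (fun j => lower hA hQ (by positivity))
  have h2 : ∀ᵐ ω ∂μ, ∀ j : ℕ, ∀ᶠ x : ℕ in atTop, ∀ K : ℕ, 1 ≤ K →
      Real.log K + 3 * Real.log (Real.log x) ≤ Real.log x →
      ∃ t : ℕ, Even t ∧ 1 ≤ t ∧ (t : ℝ) ≤ ps (2 - 1 / ((j : ℝ) + 1)) (Real.log K) (Real.log x) ∧ occ (A ω) x t < K :=
    ae_all_iff.2 (fun j => upper hA hQ (by positivity) (by
      rw [div_le_one (by positivity)]
      have : (0 : ℝ) ≤ j := Nat.cast_nonneg j
      linarith))
  filter_upwards [h1, h2] with ω h1 h2 e he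
  obtain ⟨j, hj⟩ := exists_nat_gt (1 / e)
  have hj1 : 1 / ((j : ℝ) + 1) ≤ e := by
    rw [div_le_iff₀ (by positivity)]
    rw [div_lt_iff₀ he] at hj
    nlinarith
  filter_upwards [h1 j, h2 j, log_tendsto.eventually_ge_atTop 3, eventually_ge_atTop 1] with x h3 h4 h5 h6 K hK hKx
  have hx0 : (0 : ℝ) < x := by exact_mod_cast h6
  have hKr : (1 : ℝ) ≤ K := by exact_mod_cast hK
  have hlK : Real.log K + 3 * Real.log (Real.log x) ≤ Real.log x := by
    have h7 := Real.log_le_log (by linarith) hKx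
    rw [Real.log_div (by positivity) (by positivity), Real.log_pow] at h7
    push_cast at h7
    linarith
  obtain ⟨t, ht1, ht2, ht3, ht4⟩ := h4 K hK hlK
  have hmem : rK (A ω) K x ∈ {t | 0 < t ∧ Even t ∧ occ (A ω) x t < K} := Nat.sInf_mem ⟨t, ht2, ht1, ht4⟩
  have hle : rK (A ω) K x ≤ t := Nat.sInf_le ⟨ht2, ht1, ht4⟩
  obtain ⟨r, hr⟩ : ∃ r, r = rK (A ω) K x := ⟨_, rfl⟩
  rw [← hr] at hmem hle ⊢
  obtain ⟨hm1, hm2, hm3⟩ := hmem
  have h7 : ps (2 + 1 / ((j : ℝ) + 1)) (Real.log K) (Real.log x) < r := by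
    by_contra hcon
    push Not at hcon
    have := h3 K hK r hm2 hm1 hcon
    omega
  have h8 : (r : ℝ) ≤ ps (2 - 1 / ((j : ℝ) + 1)) (Real.log K) (Real.log x) := by
    have : (r : ℝ) ≤ t := by exact_mod_cast hle
    linarith
  rw [Real.log_div hx0.ne' (by linarith)]
  unfold ps at h7 h8
  have h9 : 0 ≤ Real.log x * Real.log (Real.log x) :=
    mul_nonneg (by linarith) (Real.log_nonneg (by linarith))
  have h10 : 1 / ((j : ℝ) + 1) * (Real.log x * Real.log (Real.log x)) ≤ e * (Real.log x * Real.log (Real.log x)) :=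
    mul_le_mul_of_nonneg_right hj1 h9
  rw [abs_le]
  constructor <;> linarith

/-- the `n`-th element of `S` (`n ≥ 1`) -/
noncomputable def el (S : Set ℕ) (n : ℕ) : ℕ := Nat.nth (fun m => m ∈ S) (n - 1)

/-- the least positive even number which does not occur among the first `N` gaps -/
noncomputable def rI (S : Set ℕ) (N : ℕ) : ℕ :=
  sInf {t | 0 < t ∧ Even t ∧ ∀ n, 1 ≤ n → n ≤ N → el S (n + 1) - el S n ≠ t}

theorem occ_lt_one {S : Set ℕ} {x t : ℕ} : occ S x t < 1 ↔ ∀ a ≤ x, ¬ Cons S t a := by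
  rw [Nat.lt_one_iff]
  unfold occ
  rw [Set.ncard_eq_zero (occ_fin S x t), Set.eq_empty_iff_forall_notMem]
  constructor
  · intro h a ha hc
    exact h a ⟨ha, hc⟩
  · rintro h a ⟨ha, hc⟩
    exact h a ha hc

theorem rI_eq {S : Set ℕ} (hS : (Set.ofPred (fun m : ℕ => m ∈ S)).Infinite) {N : ℕ} (hN : 1 ≤ N) :
    rI S N = rK S 1 (el S N) := by
  unfold rI rK
  congr 1
  ext t
  rw [Set.mem_ofPred_eq, Set.mem_ofPred_eq, occ_lt_one]
  refine and_congr_right (fun ht => and_congr_right (fun _ => ?_))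
  have hmono := Nat.nth_strictMono hS
  constructor
  · intro h a ha hc
    obtain ⟨h1, h2, h3⟩ := hc
    obtain ⟨n, hn⟩ : ∃ n, Nat.nth (fun m => m ∈ S) n = a := by
      classical
      exact ⟨_, Nat.nth_count (p := fun m => m ∈ S) h1⟩
    obtain ⟨n', hn'⟩ : ∃ n, Nat.nth (fun m => m ∈ S) n = a + t := by
      classical
      exact ⟨_, Nat.nth_count (p := fun m => m ∈ S) h2⟩
    have h4 : n < n' := hmono.lt_iff_lt.1 (by rw [hn, hn']; omega)
    have h5 : n ≤ N - 1 := hmono.le_iff_le.1 (by rw [hn]; exact ha)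
    refine h (n + 1) (by omega) (by omega) ?_
    unfold el
    rw [show n + 1 + 1 - 1 = n + 1 by omega, show n + 1 - 1 = n by omega, hn]
    have h6 : Nat.nth (fun m => m ∈ S) (n + 1) ≤ a + t := by
      rw [← hn']
      exact hmono.monotone h4
    have h7 : a < Nat.nth (fun m => m ∈ S) (n + 1) := by
      rw [← hn]
      exact hmono (Nat.lt_succ_self n)
    have h8 : Nat.nth (fun m => m ∈ S) (n + 1) ∈ S := Nat.nth_mem_of_infinite hS (n + 1)
    have h9 : ¬ Nat.nth (fun m => m ∈ S) (n + 1) < a + t := fun h10 => h3 _ h7 h10 h8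
    omega
  · intro h n hn1 hn2 heq
    refine h (el S n) ?_ ?_
    · unfold el
      exact hmono.monotone (by omega)
    · have h1 : el S n < el S (n + 1) := hmono (by omega)
      have h2 : el S (n + 1) = el S n + t := by omega
      refine ⟨Nat.nth_mem_of_infinite hS _, ?_, ?_⟩
      · rw [← h2]
        exact Nat.nth_mem_of_infinite hS _
      · intro m hm1 hm2 hm3
        rw [← h2] at hm2
        obtain ⟨k, hk⟩ : ∃ k, Nat.nth (fun m => m ∈ S) k = m := by
          classical
          exact ⟨_, Nat.nth_count (p := fun m => m ∈ S) hm3⟩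
        unfold el at hm1 hm2
        rw [← hk] at hm1 hm2
        have h3 := hmono.lt_iff_lt.1 hm1
        have h4 := hmono.lt_iff_lt.1 hm2
        omega

/-- the strong law for the number of elements, in logarithmic form -/
theorem log_el {Q : ℕ} (hA : IsModel μ (level Q) A) (hQ : 1 ≤ Q) :
    ∀ᵐ ω ∂μ, (Set.ofPred (fun m : ℕ => m ∈ A ω)).Infinite ∧ ∃ C : ℝ, ∀ᶠ N : ℕ in atTop,
      |Real.log N - Real.log (el (A ω) N) + Real.log (Real.log (el (A ω) N))| ≤ C := by
  classical
  obtain ⟨c, hc, hlow⟩ := le_lt hQ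
  obtain ⟨C, hC, hup⟩ := lt_le hQ
  obtain ⟨E, hE⟩ : ∃ E : ℕ → Set Ω, E = fun n => {ω | n ∈ A ω} := ⟨_, rfl⟩
  have htot : ∀ N, tot μ E N = lt Q N := by
    intro N
    unfold tot lt
    refine sum_congr rfl (fun n _ => ?_)
    rw [hE]
    exact hA.prob n
  have hlim : Tendsto (fun N : ℕ => c * ((N : ℝ) / Real.log N)) atTop atTop := by
    refine Tendsto.const_mul_atTop hc ?_
    have h1 : Tendsto (fun y : ℝ => y / Real.log y) atTop atTop := by
      have h2 := Real.isLittleO_log_id_atTop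
      have h3 : Tendsto (fun y : ℝ => (Real.log y / y)⁻¹) atTop atTop := by
        apply Tendsto.inv_tendsto_nhdsGT_zero
        rw [tendsto_nhdsWithin_iff]
        refine ⟨h2.tendsto_div_nhds_zero, ?_⟩
        filter_upwards [eventually_gt_atTop 1] with y hy
        exact div_pos (Real.log_pos hy) (by linarith)
      refine h3.congr (fun y => ?_)
      rw [inv_div]
    exact h1.comp tendsto_natCast_atTop_atTop
  have htend : Tendsto (tot μ E) atTop atTop := by
    refine tendsto_atTop_mono' atTop ?_ hlim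
    filter_upwards [hlow] with N hN
    rw [htot]
    exact hN
  have hlaw := strong_law (μ := μ) (E := E) (fun n => by rw [hE]; exact hA.meas n) (fun n m hnm => by
    have h1 := indep_real hA (S := {n}) (T := {m}) (by simpa using hnm)
      (E := {ω | n ∈ A ω}) (G := {ω | m ∈ A ω}) (F_mem rfl) (F_mem rfl)
    rw [hE]
    exact le_of_eq h1) htend
  filter_upwards [hlaw] with ω hω
  have hcnt : ∀ N, cnt E N ω = ((Nat.count (fun m => m ∈ A ω) N : ℕ) : ℝ) := by
    intro N
    rw [Nat.count_eq_card_filter_range, card_filter]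
    unfold cnt
    push_cast
    refine sum_congr rfl (fun n _ => ?_)
    rw [hE]
    by_cases h : n ∈ A ω
    · rw [if_pos h]
      exact Set.indicator_of_mem (show ω ∈ {ω | n ∈ A ω} from h) _
    · rw [if_neg h]
      exact Set.indicator_of_notMem (show ω ∉ {ω | n ∈ A ω} from h) _
  have hcinf : Tendsto (fun N => cnt E N ω) atTop atTop := by
    have h2 := hω.pos_mul_atTop one_pos htend
    refine h2.congr' ?_
    filter_upwards [htend.eventually_gt_atTop 0] with N hN
    field_simp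
  have hinf : (Set.ofPred (fun m : ℕ => m ∈ A ω)).Infinite := by
    intro hfin
    obtain ⟨B, hB⟩ := hfin.bddAbove
    have h1 : ∀ N, cnt E N ω ≤ (B : ℝ) + 1 := by
      intro N
      rw [hcnt, Nat.count_eq_card_filter_range]
      have h2 : (range N).filter (fun m => m ∈ A ω) ⊆ range (B + 1) := by
        intro m hm
        rw [mem_filter] at hm
        have := hB (show m ∈ Set.ofPred (fun m : ℕ => m ∈ A ω) from hm.2)
        rw [mem_range]
        omega
      have h3 := card_le_card h2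
      rw [card_range] at h3
      exact_mod_cast h3
    obtain ⟨N, hN⟩ := (hcinf.eventually_gt_atTop ((B : ℝ) + 1)).exists
    exact absurd (h1 N) (not_le.2 hN)
  refine ⟨hinf, |Real.log (c / 4)| + |Real.log (4 * C)| + 2, ?_⟩
  have hmono := Nat.nth_strictMono hinf
  have helinf : Tendsto (fun N => el (A ω) N) atTop atTop :=
    hmono.tendsto_atTop.comp (tendsto_sub_atTop_nat 1)
  have helinf1 : Tendsto (fun N => el (A ω) N + 1) atTop atTop :=
    tendsto_atTop_mono (fun N => Nat.le_succ _) helinf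
  have hratio : ∀ᶠ M : ℕ in atTop, lt Q M / 2 ≤ cnt E M ω ∧ cnt E M ω ≤ 2 * lt Q M := by
    filter_upwards [hω.eventually_const_le (show (1 / 2 : ℝ) < 1 by norm_num),
      hω.eventually_le_const (show (1 : ℝ) < 2 by norm_num), htend.eventually_gt_atTop 0] with M h1 h2 h3
    rw [le_div_iff₀ h3] at h1
    rw [div_le_iff₀ h3] at h2
    rw [htot] at h1 h2
    constructor <;> linarith
  filter_upwards [helinf1.eventually hratio, helinf1.eventually hlow, helinf1.eventually hup,
    eventually_ge_atTop 1, helinf.eventually_ge_atTop 16] with N h1 h2 h3 h4 h5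
  obtain ⟨x, hx⟩ : ∃ x, x = el (A ω) N := ⟨_, rfl⟩
  rw [← hx] at h1 h2 h3 h5 ⊢
  have hN : cnt E (x + 1) ω = N := by
    rw [hcnt]
    have h6 : Nat.count (fun m => m ∈ A ω) (x + 1) = N := by
      rw [hx]
      unfold el
      rw [Nat.count_nth_succ_of_infinite hinf]
      omega
    rw [h6]
  rw [hN] at h1
  have hx16 : (16 : ℝ) ≤ x := by exact_mod_cast h5
  have hN0 : (0 : ℝ) < N := by exact_mod_cast h4
  have hl1 : 1 < Real.log x := by
    rw [Real.lt_log_iff_exp_lt (by linarith)]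
    have := Real.exp_one_lt_d9
    linarith
  push_cast at h2 h3
  have hlog1 : Real.log x ≤ Real.log (x + 1) := Real.log_le_log (by linarith) (by linarith)
  have hlog2 : Real.log (x + 1) ≤ 2 * Real.log x := by
    rw [← Real.log_rpow (by linarith)]
    apply Real.log_le_log (by linarith)
    norm_num
    nlinarith
  -- N between multiples of x / log x
  have h6 : c / 4 * ((x : ℝ) / Real.log x) ≤ N := by
    have h7 : (x : ℝ) / Real.log x / 2 ≤ ((x : ℝ) + 1) / Real.log (x + 1) := by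
      rw [div_div, div_le_div_iff₀ (by linarith) (by linarith)]
      nlinarith
    nlinarith [h1.1]
  have h7 : (N : ℝ) ≤ 4 * C * ((x : ℝ) / Real.log x) := by
    have h8 : ((x : ℝ) + 1) / Real.log (x + 1) ≤ 2 * ((x : ℝ) / Real.log x) := by
      rw [← mul_div_assoc, div_le_div_iff₀ (by linarith) (by linarith)]
      nlinarith
    nlinarith [h1.2]
  have hxl : 0 < (x : ℝ) / Real.log x := by positivity
  have h8 := Real.log_le_log (by positivity) h6
  have h9 := Real.log_le_log hN0 h7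
  have h14 : Real.log ((x : ℝ) / Real.log x) = Real.log x - Real.log (Real.log x) :=
    Real.log_div (by linarith) (by linarith)
  rw [Real.log_mul (by positivity) hxl.ne', h14] at h8 h9
  have h10 := neg_abs_le (Real.log (c / 4))
  have h11 := le_abs_self (Real.log (4 * C))
  have h12 := abs_nonneg (Real.log (c / 4))
  have h13 := abs_nonneg (Real.log (4 * C))
  rw [abs_le]
  constructor <;> linarith

/-- **The smallest even number missing among the first `N` gaps.** -/
theorem rI_law {Q : ℕ} (hA : IsModel μ (level Q) A) (hQ : 1 ≤ Q) :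
    ∀ᵐ ω ∂μ, Tendsto (fun N : ℕ => ((rI (A ω) N : ℝ) - Real.log N ^ 2) / (Real.log N * Real.log (Real.log N)))
      atTop (nhds 0) := by
  filter_upwards [rK_law hA hQ, log_el hA hQ] with ω h1 h2
  obtain ⟨hinf, C, hCe⟩ := h2
  have hmono := Nat.nth_strictMono hinf
  have helinf : Tendsto (fun N => el (A ω) N) atTop atTop :=
    hmono.tendsto_atTop.comp (tendsto_sub_atTop_nat 1)
  have hX : Tendsto (fun N => Real.log (el (A ω) N : ℝ)) atTop atTop := log_tendsto.comp helinf
  have hC0 : 0 ≤ C := by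
    obtain ⟨N, hN⟩ := hCe.exists
    exact (abs_nonneg _).trans hN
  rw [Metric.tendsto_atTop]
  intro e he
  obtain ⟨d, hd⟩ : ∃ d : ℝ, d = e / 20 := ⟨_, rfl⟩
  have hd0 : 0 < d := by rw [hd]; positivity
  have hllog : Tendsto (fun X : ℝ => Real.log X) atTop atTop := Real.tendsto_log_atTop
  -- asymptotics in `X`
  have hX1 : ∀ᶠ X : ℝ in atTop, Real.log X ^ 2 + 2 * C * X + C ^ 2 ≤ d * (X * Real.log X) ∧
      2 * (Real.log X + C) ≤ X ∧ 4 ≤ Real.log X := by
    have h3 := (Real.isLittleO_pow_log_id_atTop (n := 2)).def (show (0 : ℝ) < 1 by norm_num)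
    have h4 := Real.isLittleO_log_id_atTop.def (show (0 : ℝ) < 1 / 4 by norm_num)
    filter_upwards [h3, h4, hllog.eventually_ge_atTop ((1 + 2 * C + C ^ 2) / d), hllog.eventually_ge_atTop 4,
      eventually_ge_atTop 1, eventually_ge_atTop (4 * C)] with X h5 h6 h7 h8 h9 h10
    simp only [id, Real.norm_eq_abs] at h5 h6
    rw [abs_of_nonneg (by positivity), abs_of_nonneg (by linarith)] at h5
    rw [abs_of_nonneg (by linarith), abs_of_nonneg (by linarith)] at h6
    rw [div_le_iff₀ hd0] at h7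
    refine ⟨?_, by linarith, h8⟩
    have h11 : C ^ 2 ≤ C ^ 2 * X := by nlinarith [sq_nonneg C]
    nlinarith
  have h5 : ∀ᶠ x : ℕ in atTop, 1 ≤ (x : ℝ) / Real.log x ^ 3 := by
    have h6 := (Real.isLittleO_pow_log_id_atTop (n := 3)).def (show (0 : ℝ) < 1 by norm_num)
    filter_upwards [tendsto_natCast_atTop_atTop.eventually h6, log_tendsto.eventually_ge_atTop 1] with x h7 h8
    simp only [id, Real.norm_eq_abs] at h7
    rw [abs_of_nonneg (by positivity), abs_of_nonneg (by positivity)] at h7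
    rw [le_div_iff₀ (by positivity)]
    linarith
  have hall : ∀ᶠ N : ℕ in atTop, |((rI (A ω) N : ℝ) - Real.log N ^ 2) / (Real.log N * Real.log (Real.log N))| < e := by
    filter_upwards [helinf.eventually (h1 d hd0), hCe, hX.eventually hX1, eventually_ge_atTop 1,
      helinf.eventually h5, helinf.eventually_ge_atTop 1] with N h6 h7 h8 h9 h10 h11
    have h12 := h6 1 le_rfl (by exact_mod_cast h10)
    rw [← rI_eq hinf h9] at h12
    obtain ⟨r, hr⟩ : ∃ r : ℝ, r = rI (A ω) N := ⟨_, rfl⟩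
    obtain ⟨X, hXd⟩ : ∃ X : ℝ, X = Real.log (el (A ω) N) := ⟨_, rfl⟩
    obtain ⟨Y, hYd⟩ : ∃ Y : ℝ, Y = Real.log N := ⟨_, rfl⟩
    rw [Nat.cast_one, div_one, ← hXd, ← hr] at h12
    rw [← hXd, ← hYd] at h7
    rw [← hXd] at h8
    rw [← hr, ← hYd]
    obtain ⟨h81, h82, h83⟩ := h8
    obtain ⟨z, hz⟩ : ∃ z : ℝ, z = Y - X + Real.log X := ⟨_, rfl⟩
    rw [← hz] at h7
    have hY : Y = X - Real.log X + z := by linarith
    obtain ⟨hz1, hz2⟩ := abs_le.1 h7
    have hX0 : 0 < X := by linarith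
    have hXY : X ≤ 2 * Y := by linarith
    have hlY : Real.log X ≤ 2 * Real.log Y ∧ 3 ≤ Real.log Y := by
      have h13 := Real.log_le_log hX0 hXY
      rw [Real.log_mul (by norm_num) (by linarith)] at h13
      have := Real.log_two_lt_d9
      constructor <;> linarith
    have hXX : X * Real.log X ≤ 4 * (Y * Real.log Y) := by
      have h13 : X * Real.log X ≤ (2 * Y) * (2 * Real.log Y) :=
        mul_le_mul hXY hlY.1 (by linarith) (by linarith)
      linarith
    have hYY : 0 < Y * Real.log Y := mul_pos (by linarith) (by linarith)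
    have h14 : |Y ^ 2 - (X * X - 2 * (X * Real.log X))| ≤ Real.log X ^ 2 + 2 * C * X + C ^ 2 := by
      have h15 : Y ^ 2 - (X * X - 2 * (X * Real.log X)) = Real.log X ^ 2 + 2 * z * (X - Real.log X) + z ^ 2 := by
        rw [hY]
        ring
      rw [h15]
      have h16 : |Real.log X ^ 2 + 2 * z * (X - Real.log X) + z ^ 2| ≤
          |Real.log X ^ 2| + |2 * z * (X - Real.log X)| + |z ^ 2| := abs_add_three _ _ _
      refine h16.trans ?_
      rw [abs_of_nonneg (sq_nonneg _), abs_of_nonneg (sq_nonneg z), abs_mul, abs_mul, abs_of_pos (show (0:ℝ) < 2 by norm_num),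
        abs_of_nonneg (show 0 ≤ X - Real.log X by linarith)]
      have h17 : z ^ 2 ≤ C ^ 2 := sq_le_sq' (by linarith) hz2
      have h18 : 2 * |z| * (X - Real.log X) ≤ 2 * C * X := by
        apply mul_le_mul (by linarith) (by linarith) (by linarith) (by linarith)
      linarith
    have h15 : |r - Y ^ 2| ≤ 8 * d * (Y * Real.log Y) := by
      have h16 : |r - Y ^ 2| ≤ |r - (X * X - 2 * (X * Real.log X))| + |(X * X - 2 * (X * Real.log X)) - Y ^ 2| :=
        abs_sub_le _ _ _
      rw [abs_sub_comm (X * X - 2 * (X * Real.log X)) (Y ^ 2)] at h16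
      have h17 : d * (X * Real.log X) ≤ d * (4 * (Y * Real.log Y)) := mul_le_mul_of_nonneg_left hXX hd0.le
      linarith
    rw [abs_div, abs_of_pos hYY, div_lt_iff₀ hYY]
    refine lt_of_le_of_lt h15 ?_
    apply mul_lt_mul_of_pos_right _ hYY
    rw [hd]
    linarith
  obtain ⟨N0, hN0⟩ := eventually_atTop.1 hall
  refine ⟨N0, fun N hN => ?_⟩
  rw [Real.dist_eq, sub_zero]
  exact hN0 N hN

end Pool.Agent.Q107.MG
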