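import Pool.Agent.Q107.MG.Tot

/-!
# All small even numbers are gaps many times
-/

set_option autoImplicit false

namespace Pool.Agent.Q107.MG

open Finset MeasureTheory ProbabilityTheory Filter Pool.Agent.Q120.GM

/-- `X (X - l) - c X log X` -/
noncomputable def ps (c l X : ℝ) : ℝ := X * (X - l) - c * (X * Real.log X)

theorem step {c d : ℝ} (hd : 0 ≤ d) (hcd : c < d) :
    ∀ᶠ L : ℝ in atTop, ∀ X l l', L ≤ X → X ≤ L + 1 → 0 ≤ l' → l ≤ l' + 1 → ps d l' X + 2 + X ≤ ps c l L := by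
  filter_upwards [Real.tendsto_log_atTop.eventually_ge_atTop (6 / (d - c)), eventually_ge_atTop 2] with
    L h1 h2 X l l' h3 h4 h0 hl
  have hdc : 0 < d - c := by linarith
  rw [div_le_iff₀ hdc] at h1
  have hlL : 0 ≤ Real.log L := Real.log_nonneg (by linarith)
  have h5 : L * Real.log L ≤ X * Real.log X := by
    apply mul_le_mul h3 (Real.log_le_log (by linarith) h3) hlL (by linarith)
  unfold ps
  have h6 : d * (L * Real.log L) ≤ d * (X * Real.log X) := mul_le_mul_of_nonneg_left h5 hd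
  have h7 : X ^ 2 ≤ L ^ 2 + 2 * L + 1 := by nlinarith
  have h8 : 6 * L ≤ (d - c) * (L * Real.log L) := by nlinarith
  have h9 : L * l' ≤ X * l' := mul_le_mul_of_nonneg_right h3 h0
  have h10 : L * l ≤ L * (l' + 1) := mul_le_mul_of_nonneg_left hl (by linarith)
  nlinarith

theorem le_sq {c l X : ℝ} (hc : 0 ≤ c) (hl : 0 ≤ l) (hX : 1 ≤ X) : ps c l X ≤ X ^ 2 := by
  unfold ps
  have h1 : 0 ≤ X * Real.log X := mul_nonneg (by linarith) (Real.log_nonneg hX)
  have h2 : 0 ≤ X * l := mul_nonneg (by linarith) hl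
  nlinarith

variable {Ω : Type*} [MeasurableSpace Ω] {μ : Measure Ω} [IsProbabilityMeasure μ] {A : Ω → Set ℕ}

theorem exp_ps {c l L : ℝ} (hL : 0 < L) : Real.exp (-(ps c l L / L)) = Real.exp (-L) * Real.exp l * L ^ c := by
  rw [Real.rpow_def_of_pos hL, ← Real.exp_add, ← Real.exp_add]
  congr 1
  unfold ps
  field_simp
  ring

theorem miss_one {Q : ℕ} (hA : IsModel μ (level Q) A) (hQ : 1 ≤ Q) {e : ℝ} (he : 0 < e) :
    ∃ c : ℝ, 0 < c ∧ ∀ᶠ k : ℕ in atTop, ∀ K : ℕ, 1 ≤ K → ∀ t : ℕ, Even t → 1 ≤ t →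
      (t : ℝ) ≤ ps (2 + e) (Real.log K) (Real.log ((2 : ℝ) ^ k)) →
      μ.real {ω | occ (A ω) (2 ^ k) t < K} ≤ Real.exp (-(c * Real.log ((2 : ℝ) ^ k) ^ e)) := by
  have hq := qq_pos hQ
  have hQ0 : (0 : ℝ) < Q := by exact_mod_cast hQ
  obtain ⟨C, hC⟩ : ∃ C : ℝ, C = 2 + 4 * qq Q + Q * (1 + qq Q) := ⟨_, rfl⟩
  obtain ⟨c, hc⟩ : ∃ c : ℝ, c = qq Q ^ 2 * Real.exp (-C) / (64 * Q) := ⟨_, rfl⟩
  have hc0 : 0 < c := by rw [hc]; positivity
  refine ⟨c / 2, by positivity, ?_⟩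
  have hL : Tendsto (fun k : ℕ => Real.log ((2 : ℝ) ^ k)) atTop atTop :=
    Real.tendsto_log_atTop.comp (tendsto_pow_atTop_atTop_of_one_lt (by norm_num))
  have h2k : ∀ᶠ k : ℕ in atTop, 8 * Real.log ((2 : ℝ) ^ k) ^ 2 ≤ (2 : ℝ) ^ k := by
    have h1 := (Real.isLittleO_pow_log_id_atTop (n := 2)).def (show (0 : ℝ) < 1 / 8 by norm_num)
    filter_upwards [(tendsto_pow_atTop_atTop_of_one_lt (r := (2 : ℝ)) (by norm_num)).eventually h1] with k h2
    simp only [id, Real.norm_eq_abs] at h2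
    rw [abs_of_nonneg (by positivity), abs_of_nonneg (by positivity)] at h2
    linarith
  have h2Q : ∀ᶠ k : ℕ in atTop, 4 * (Q : ℝ) ≤ (2 : ℝ) ^ k :=
    (tendsto_pow_atTop_atTop_of_one_lt (r := (2 : ℝ)) (by norm_num)).eventually_ge_atTop _
  have hce : ∀ᶠ k : ℕ in atTop, 2 / c ≤ Real.log ((2 : ℝ) ^ k) ^ e :=
    ((tendsto_rpow_atTop he).comp hL).eventually_ge_atTop _
  filter_upwards [hL.eventually_ge_atTop (4 + 4 * qq Q), eventually_ge_atTop 1, h2k, h2Q, hce] with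
    k h1 hk h3 h4 hce K hK t hte ht htl
  obtain ⟨L, hLd⟩ : ∃ L : ℝ, L = Real.log ((2 : ℝ) ^ k) := ⟨_, rfl⟩
  rw [← hLd] at h1 h3 htl hce ⊢
  have hK1 : (1 : ℝ) ≤ K := by exact_mod_cast hK
  have hlK : 0 ≤ Real.log K := Real.log_nonneg hK1
  obtain ⟨j, rfl⟩ : ∃ j, k = j + 1 := ⟨k - 1, by omega⟩
  have hL4 : 4 ≤ L := by linarith
  have hln2 : 0 < Real.log 2 ∧ Real.log 2 ≤ 1 := ⟨Real.log_pos (by norm_num), by
    have := Real.log_two_lt_d9
    linarith⟩
  obtain ⟨L0, hL0d⟩ : ∃ L0 : ℝ, L0 = Real.log ((2 : ℝ) ^ j) := ⟨_, rfl⟩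
  have hLL0 : L = L0 + Real.log 2 := by
    rw [hLd, hL0d, pow_succ, Real.log_mul (by positivity) (by norm_num)]
  have hL01 : L / 2 ≤ L0 := by linarith [hln2.2]
  have hL02 : 1 ≤ L0 := by linarith
  have ht0 : (0 : ℝ) ≤ t := Nat.cast_nonneg t
  have htL : (t : ℝ) ≤ L ^ 2 := htl.trans (le_sq (by linarith) hlK (by linarith))
  obtain ⟨M, hM⟩ : ∃ M, M = 2 ^ j / (2 * t + Q) := ⟨_, rfl⟩
  obtain ⟨g, hg⟩ : ∃ g : ℝ, g = (qq Q / L) ^ 2 * Real.exp (-(((t : ℝ) + Q) * (1 / L0 + qq Q / L0 ^ 2))) := ⟨_, rfl⟩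
  have hg0 : 0 ≤ g := by rw [hg]; positivity
  have hMle : M * (2 * t + Q) ≤ 2 ^ j := by rw [hM]; exact Nat.div_mul_le_self _ _
  have hcast : ((2 ^ j : ℕ) : ℝ) = (2 : ℝ) ^ j := by push_cast; rfl
  have hmiss := few_le (μ := μ) (A := A) hA hQ hte ht (x0 := 2 ^ j) (M := M) (X := 2 ^ (j + 1)) (by
    rw [pow_succ]; omega) hg0 (by
    intro n hn1 hn2 hgood
    rw [hg, hLd, hL0d]
    refine le_gev hA hQ (by rw [← hL0d]; exact hL02) (by rw [← hL0d]; linarith) (by positivity) ht ?_ ?_ hgood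
    · rw [← hcast]
      exact_mod_cast hn1
    · have h5 : n + t ≤ 2 ^ (j + 1) := by
        rw [pow_succ]
        omega
      have h6 : ((n + t : ℕ) : ℝ) ≤ ((2 ^ (j + 1) : ℕ) : ℝ) := by exact_mod_cast h5
      push_cast at h6
      exact h6) K
  refine hmiss.trans ?_
  rw [Real.exp_le_exp]
  -- the number of blocks
  have h5 : (2 : ℝ) ^ (j + 1) / 8 ≤ (M : ℝ) * ((t : ℝ) + Q) := by
    have h6 : 2 ^ j < M * (2 * t + Q) + (2 * t + Q) := by
      rw [hM]
      exact Nat.lt_div_mul_add (by omega)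
    have h7 : ((2 ^ j : ℕ) : ℝ) < ((M * (2 * t + Q) + (2 * t + Q) : ℕ) : ℝ) := by exact_mod_cast h6
    push_cast at h7
    have h8 : (2 : ℝ) ^ (j + 1) = 2 * 2 ^ j := by ring
    have h9 : (0 : ℝ) ≤ (M : ℝ) * Q := by positivity
    have h10 : (2 : ℝ) * t + Q ≤ 2 ^ j := by linarith
    -- M ≥ 1
    have h11 : 1 ≤ M := by
      rw [hM]
      apply Nat.div_pos _ (by omega)
      have : ((2 * t + Q : ℕ) : ℝ) ≤ ((2 ^ j : ℕ) : ℝ) := by push_cast; exact h10
      exact_mod_cast this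
    have h12 : (1 : ℝ) ≤ M := by exact_mod_cast h11
    have h13 : (2 : ℝ) * t + Q ≤ M * (2 * t + Q) := by
      have : (0 : ℝ) ≤ 2 * t + Q := by positivity
      nlinarith
    nlinarith
  -- the exponent
  have h6 : ((t : ℝ) + Q) * (1 / L0 + qq Q / L0 ^ 2) ≤ ps (2 + e) (Real.log K) L / L + C := by
    have hL0p : 0 < L0 := by linarith
    have hLp : 0 < L := by linarith
    have h7 : (t : ℝ) * (1 / L0) ≤ ps (2 + e) (Real.log K) L / L + 2 := by
      have h8 : (t : ℝ) * (1 / L0) = t / L + t * (Real.log 2 / (L0 * L)) := by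
        rw [hLL0]
        have : L0 + Real.log 2 ≠ 0 := by rw [← hLL0]; exact hLp.ne'
        field_simp
      have h9 : (t : ℝ) * (Real.log 2 / (L0 * L)) ≤ 2 := by
        rw [mul_div_assoc', div_le_iff₀ (by positivity)]
        calc (t : ℝ) * Real.log 2 ≤ L ^ 2 * 1 := mul_le_mul htL hln2.2 hln2.1.le (by positivity)
          _ ≤ 2 * (L0 * L) := by nlinarith
      have h10 : (t : ℝ) / L ≤ ps (2 + e) (Real.log K) L / L := div_le_div_of_nonneg_right htl hLp.le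
      rw [h8]
      linarith
    have h8 : (t : ℝ) * (qq Q / L0 ^ 2) ≤ 4 * qq Q := by
      rw [mul_div_assoc', div_le_iff₀ (by positivity)]
      have h9 : (t : ℝ) ≤ 4 * L0 ^ 2 := by nlinarith
      nlinarith
    have h9 : (Q : ℝ) * (1 / L0 + qq Q / L0 ^ 2) ≤ Q * (1 + qq Q) := by
      apply mul_le_mul_of_nonneg_left _ hQ0.le
      have h10 : 1 / L0 ≤ 1 := by
        rw [div_le_one hL0p]
        exact hL02
      have h11 : qq Q / L0 ^ 2 ≤ qq Q := by
        apply div_le_self hq.le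
        nlinarith
      linarith
    rw [hC]
    nlinarith
  have h7 : qq Q ^ 2 * Real.exp (-C) * (K * (L ^ e / (2 : ℝ) ^ (j + 1))) ≤ g := by
    have hLp : 0 < L := by linarith
    have h8 : Real.exp (-(ps (2 + e) (Real.log K) L / L + C)) ≤
        Real.exp (-(((t : ℝ) + Q) * (1 / L0 + qq Q / L0 ^ 2))) := by
      rw [Real.exp_le_exp]
      linarith
    have h9 : Real.exp (-(ps (2 + e) (Real.log K) L / L + C)) =
        K * L ^ (2 + e) / (2 : ℝ) ^ (j + 1) * Real.exp (-C) := by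
      rw [neg_add, Real.exp_add, exp_ps hLp, hLd, Real.exp_neg, Real.exp_log (by positivity),
        Real.exp_log (by linarith)]
      ring
    rw [h9] at h8
    rw [hg]
    refine le_trans (le_of_eq ?_) (mul_le_mul_of_nonneg_left h8 (by positivity))
    rw [Real.rpow_add hLp, Real.rpow_two]
    field_simp
  have hbig : (0 : ℝ) < 2 ^ (j + 1) := by positivity
  have hLp : 0 < L := by linarith
  have h8 : c * K * L ^ e ≤ (M : ℝ) * ((t : ℝ) + Q) / (8 * Q) * g := by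
    calc c * K * L ^ e =
          (2 : ℝ) ^ (j + 1) / 8 / (8 * Q) * (qq Q ^ 2 * Real.exp (-C) * (K * (L ^ e / (2 : ℝ) ^ (j + 1)))) := by
          rw [hc]
          field_simp
          norm_num
      _ ≤ (M : ℝ) * ((t : ℝ) + Q) / (8 * Q) * g := by
          apply mul_le_mul _ h7 (by positivity) (by positivity)
          exact div_le_div_of_nonneg_right h5 (by positivity)
  have h9 : 2 ≤ c * L ^ e := by
    rw [div_le_iff₀ hc0] at hce
    linarith
  have h10 : c / 2 * L ^ e ≤ K * (c / 2 * L ^ e) := by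
    have : 0 ≤ c / 2 * L ^ e := by positivity
    nlinarith
  nlinarith

theorem low_pow {Q : ℕ} (hA : IsModel μ (level Q) A) (hQ : 1 ≤ Q) {e : ℝ} (he : 0 < e) :
    ∀ᵐ ω ∂μ, ∀ᶠ k : ℕ in atTop, ∀ i : ℕ, i ≤ k → ∀ t : ℕ, Even t → 1 ≤ t →
      (t : ℝ) ≤ ps (2 + e) (Real.log ((2 : ℝ) ^ i)) (Real.log ((2 : ℝ) ^ k)) → 2 ^ i ≤ occ (A ω) (2 ^ k) t := by
  obtain ⟨c, hc, h1⟩ := miss_one hA hQ he
  have hL : Tendsto (fun k : ℕ => Real.log ((2 : ℝ) ^ k)) atTop atTop :=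
    Real.tendsto_log_atTop.comp (tendsto_pow_atTop_atTop_of_one_lt (by norm_num))
  have h2 : Tendsto (fun u : ℝ => (u ^ e) ^ (5 / e) * Real.exp (-c * (u ^ e))) atTop (nhds 0) :=
    (tendsto_rpow_mul_exp_neg_mul_atTop_nhds_zero (5 / e) c hc).comp (tendsto_rpow_atTop he)
  have h3 := bc (μ := μ) (B := fun k : ℕ => {ω | ¬ ∀ i : ℕ, i ≤ k → ∀ t : ℕ, Even t → 1 ≤ t →
      (t : ℝ) ≤ ps (2 + e) (Real.log ((2 : ℝ) ^ i)) (Real.log ((2 : ℝ) ^ k)) → 2 ^ i ≤ occ (A ω) (2 ^ k) t})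
    (g := fun k : ℕ => (3 / Real.log 2 ^ 2) * (1 / (k : ℝ) ^ 2))
    ((Real.summable_one_div_nat_pow.2 (by norm_num)).mul_left _) (by
    filter_upwards [h1, (h2.comp hL).eventually_le_const (show (0 : ℝ) < 1 by norm_num),
      hL.eventually_ge_atTop 1, eventually_ge_atTop 1] with k h4 h5 h6 h7
    obtain ⟨L, hLd⟩ : ∃ L : ℝ, L = Real.log ((2 : ℝ) ^ k) := ⟨_, rfl⟩
    simp only [Function.comp_apply] at h5
    rw [← hLd] at h4 h5 h6
    have hLp : 0 < L := by linarith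
    obtain ⟨J, hJ⟩ : ∃ J : Finset (ℕ × ℕ), J = ((range (k + 1)) ×ˢ (Icc 1 ⌊L ^ 2⌋₊)).filter
      (fun q : ℕ × ℕ => Even q.2 ∧ (q.2 : ℝ) ≤ ps (2 + e) (Real.log ((2 : ℝ) ^ q.1)) L) := ⟨_, rfl⟩
    have hsub : {ω | ¬ ∀ i : ℕ, i ≤ k → ∀ t : ℕ, Even t → 1 ≤ t →
        (t : ℝ) ≤ ps (2 + e) (Real.log ((2 : ℝ) ^ i)) (Real.log ((2 : ℝ) ^ k)) → 2 ^ i ≤ occ (A ω) (2 ^ k) t} ⊆
        ⋃ q ∈ J, {ω | occ (A ω) (2 ^ k) q.2 < 2 ^ q.1} := by
      intro ω hω
      rw [Set.mem_ofPred_eq] at hω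
      push Not at hω
      obtain ⟨i, hi, t, ht1, ht2, ht3, ht4⟩ := hω
      rw [← hLd] at ht3
      rw [Set.mem_iUnion₂]
      refine ⟨(i, t), ?_, ht4⟩
      rw [hJ, mem_filter, mem_product, mem_range, mem_Icc]
      refine ⟨⟨by omega, ht2, Nat.le_floor (ht3.trans (le_sq (by linarith) ?_ h6))⟩, ht1, ht3⟩
      exact Real.log_nonneg (one_le_pow₀ (by norm_num))
    refine (measureReal_mono hsub (measure_ne_top _ _)).trans ((measureReal_biUnion_finset_le _ _).trans ?_)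
    have h8 : ∀ q ∈ J, μ.real {ω | occ (A ω) (2 ^ k) q.2 < 2 ^ q.1} ≤ Real.exp (-(c * L ^ e)) := by
      intro q hq
      rw [hJ, mem_filter, mem_product, mem_range, mem_Icc] at hq
      refine h4 (2 ^ q.1) (Nat.one_le_two_pow) q.2 hq.2.1 hq.1.2.1 ?_
      push_cast
      exact hq.2.2
    refine (sum_le_sum h8).trans ?_
    rw [sum_const, nsmul_eq_mul]
    have hk1 : (1 : ℝ) ≤ k := by exact_mod_cast h7
    have h12 : L = k * Real.log 2 := by rw [hLd, Real.log_pow]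
    have hln2 : 1 / 2 < Real.log 2 := by
      have := Real.log_two_gt_d9
      linarith
    have h9 : ((J.card : ℕ) : ℝ) ≤ 3 * L ^ 3 := by
      have h10 : J.card ≤ (k + 1) * ⌊L ^ 2⌋₊ := by
        rw [hJ]
        refine (card_filter_le _ _).trans ?_
        rw [card_product, card_range, Nat.card_Icc]
        exact Nat.mul_le_mul_left _ (by omega)
      have h11 : (J.card : ℝ) ≤ ((k : ℝ) + 1) * (⌊L ^ 2⌋₊ : ℝ) := by exact_mod_cast h10
      have h13 : ((k : ℝ) + 1) ≤ 3 * L := by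
        have h14 : (k : ℝ) ≤ 2 * L := by
          rw [h12]
          nlinarith
        linarith
      calc (J.card : ℝ) ≤ ((k : ℝ) + 1) * (⌊L ^ 2⌋₊ : ℝ) := h11
        _ ≤ (3 * L) * L ^ 2 := mul_le_mul h13 (Nat.floor_le (by positivity)) (Nat.cast_nonneg _) (by positivity)
        _ = 3 * L ^ 3 := by ring
    refine (mul_le_mul_of_nonneg_right h9 (Real.exp_pos _).le).trans ?_
    have h10 : (L ^ e) ^ (5 / e) = L ^ (5 : ℝ) := by
      rw [← Real.rpow_mul hLp.le]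
      congr 1
      field_simp
    rw [h10] at h5
    have h11 : L ^ (5 : ℝ) = L ^ 5 := by
      rw [show (5 : ℝ) = ((5 : ℕ) : ℝ) by norm_num, Real.rpow_natCast]
    rw [h11, neg_mul] at h5
    have h13 : 3 / Real.log 2 ^ 2 * (1 / (k : ℝ) ^ 2) = 3 / L ^ 2 := by
      rw [h12]
      have : (k : ℝ) ≠ 0 := by linarith
      have h14 : Real.log 2 ≠ 0 := by linarith
      field_simp
    rw [h13, le_div_iff₀ (by positivity)]
    nlinarith)
  filter_upwards [h3] with ω hω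
  filter_upwards [hω] with k hk
  rw [not_not] at hk
  exact hk

theorem log_tendsto : Tendsto (fun x : ℕ => Real.log (x : ℝ)) atTop atTop :=
  Real.tendsto_log_atTop.comp tendsto_natCast_atTop_atTop

theorem natlog_tendsto : Tendsto (fun x : ℕ => Nat.log 2 x) atTop atTop := by
  rw [tendsto_atTop]
  intro b
  filter_upwards [eventually_ge_atTop (2 ^ b)] with x hx
  have := Nat.log_mono_right (b := 2) hx
  rwa [Nat.log_pow (by norm_num)] at this

/-- **Small even numbers are gaps many times.** -/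
theorem lower {Q : ℕ} (hA : IsModel μ (level Q) A) (hQ : 1 ≤ Q) {e : ℝ} (he : 0 < e) :
    ∀ᵐ ω ∂μ, ∀ᶠ x : ℕ in atTop, ∀ K : ℕ, 1 ≤ K → ∀ t : ℕ, Even t → 1 ≤ t →
      (t : ℝ) ≤ ps (2 + e) (Real.log K) (Real.log x) → K ≤ occ (A ω) x t := by
  filter_upwards [low_pow hA hQ (show 0 < e / 2 by linarith)] with ω hω
  have h1 : Tendsto (fun x : ℕ => Real.log ((2 : ℝ) ^ (Nat.log 2 x))) atTop atTop :=
    (Real.tendsto_log_atTop.comp (tendsto_pow_atTop_atTop_of_one_lt (by norm_num))).comp natlog_tendsto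
  filter_upwards [natlog_tendsto.eventually hω, eventually_ge_atTop 3,
    h1.eventually (step (c := 2 + e / 2) (d := 2 + e) (by linarith) (by linarith)),
    h1.eventually_ge_atTop 1] with x h2 h3 h4 hL1 K hK t ht1 ht2 ht3
  have h5 : 2 ^ Nat.log 2 x ≤ x := Nat.pow_log_le_self 2 (by omega)
  have h6 : x < 2 ^ (Nat.log 2 x + 1) := Nat.lt_pow_succ_log_self (by norm_num) x
  have hx0 : (0 : ℝ) < x := by exact_mod_cast (by omega : 0 < x)
  have h7 : ((2 ^ Nat.log 2 x : ℕ) : ℝ) ≤ x := by exact_mod_cast h5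
  have h8 : (x : ℝ) ≤ ((2 ^ (Nat.log 2 x + 1) : ℕ) : ℝ) := by exact_mod_cast h6.le
  push_cast at h7 h8
  have hln2 := Real.log_two_lt_d9
  have hKr : (1 : ℝ) ≤ K := by exact_mod_cast hK
  have hlK : 0 ≤ Real.log K := Real.log_nonneg hKr
  -- the power of two above `K`
  obtain ⟨i, hi⟩ : ∃ i, i = Nat.clog 2 K := ⟨_, rfl⟩
  have hi1 : K ≤ 2 ^ i := by rw [hi]; exact Nat.le_pow_clog (by norm_num) K
  have hi2 : (2 : ℝ) ^ i ≤ 2 * K := by
    rcases Nat.eq_zero_or_pos i with h0 | h0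
    · rw [h0, pow_zero]
      linarith
    · have h9 : 2 ^ (i - 1) < K := by
        rw [hi]
        exact Nat.pow_pred_clog_lt_self (by norm_num) (by
          by_contra hcon
          have : K = 1 := by omega
          rw [hi, this] at h0
          simp at h0)
      have h10 : ((2 ^ (i - 1) : ℕ) : ℝ) < K := by exact_mod_cast h9
      push_cast at h10
      have h11 : (2 : ℝ) ^ i = 2 * 2 ^ (i - 1) := by
        rw [← pow_succ']
        congr 1
        omega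
      linarith
  have hli : Real.log ((2 : ℝ) ^ i) ≤ Real.log K + 1 := by
    have h9 := Real.log_le_log (by positivity) hi2
    rw [Real.log_mul (by norm_num) (by linarith)] at h9
    linarith
  have hlx : Real.log x ≤ Real.log ((2 : ℝ) ^ Nat.log 2 x) + 1 := by
    refine (Real.log_le_log hx0 h8).trans ?_
    rw [pow_succ, Real.log_mul (by positivity) (by norm_num)]
    linarith
  have hlx2 : Real.log ((2 : ℝ) ^ Nat.log 2 x) ≤ Real.log x := Real.log_le_log (by positivity) h7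
  have h9 := h4 (Real.log x) (Real.log ((2 : ℝ) ^ i)) (Real.log K) hlx2 hlx hlK hli
  have h10 : 0 ≤ Real.log x := Real.log_natCast_nonneg x
  have htpos : (1 : ℝ) ≤ t := by exact_mod_cast ht2
  have h11 : (t : ℝ) ≤ ps (2 + e / 2) (Real.log ((2 : ℝ) ^ i)) (Real.log ((2 : ℝ) ^ Nat.log 2 x)) := by linarith
  have hik : i ≤ Nat.log 2 x := by
    by_contra hcon
    push Not at hcon
    have h12 : Real.log ((2 : ℝ) ^ Nat.log 2 x) ≤ Real.log ((2 : ℝ) ^ i) :=
      Real.log_le_log (by positivity) (pow_le_pow_right₀ (by norm_num) hcon.le)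
    have h13 : ps (2 + e / 2) (Real.log ((2 : ℝ) ^ i)) (Real.log ((2 : ℝ) ^ Nat.log 2 x)) ≤ 0 := by
      unfold ps
      have h14 := Real.log_nonneg hL1
      have h15 : 0 ≤ (2 + e / 2) * (Real.log ((2 : ℝ) ^ Nat.log 2 x) *
        Real.log (Real.log ((2 : ℝ) ^ Nat.log 2 x))) := by positivity
      have h16 : Real.log ((2 : ℝ) ^ Nat.log 2 x) * (Real.log ((2 : ℝ) ^ Nat.log 2 x) - Real.log ((2 : ℝ) ^ i)) ≤ 0 :=
        mul_nonpos_of_nonneg_of_nonpos (by linarith) (by linarith)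
      linarith
    linarith
  exact hi1.trans ((h2 i hik t ht1 ht2 h11).trans (occ_mono h5))

end Pool.Agent.Q107.MG
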