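import Pool.Agent.Q120.GM.Level
import Pool.Agent.Q120.GM.Free
import Pool.Agent.Q120.GM.Count

/-!
# Gap events in the sieved Cramér models
-/

set_option autoImplicit false

namespace Pool.Agent.Q107.MG

open Finset MeasureTheory ProbabilityTheory Filter Pool.Agent.Q120.GM

variable {Ω : Type*} [MeasurableSpace Ω] {μ : Measure Ω} [IsProbabilityMeasure μ] {A : Ω → Set ℕ}

/-- `n` and `n + t` are consecutive elements. -/
def gev (A : Ω → Set ℕ) (t n : ℕ) : Set Ω := all A {n, n + t} ∩ free A (Ioo n (n + t))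

/-- `n` is an element and the next `h` integers are not. -/
def fev (A : Ω → Set ℕ) (h n : ℕ) : Set Ω := all A {n} ∩ free A (Ioc n (n + h))

omit [MeasurableSpace Ω] in
theorem mem_gev {t n : ℕ} {ω : Ω} : ω ∈ gev A t n ↔ n ∈ A ω ∧ n + t ∈ A ω ∧ ∀ m, n < m → m < n + t → m ∉ A ω := by
  unfold gev all free
  constructor
  · rintro ⟨h1, h2⟩
    exact ⟨h1 n (by simp), h1 (n + t) (by simp), fun m h3 h4 => h2 m (mem_Ioo.2 ⟨h3, h4⟩)⟩
  · rintro ⟨h1, h2, h3⟩
    refine ⟨?_, fun m hm => h3 m (mem_Ioo.1 hm).1 (mem_Ioo.1 hm).2⟩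
    intro i hi
    rw [mem_insert, mem_singleton] at hi
    rcases hi with rfl | rfl
    · exact h1
    · exact h2

omit [MeasurableSpace Ω] in
theorem mem_fev {h n : ℕ} {ω : Ω} : ω ∈ fev A h n ↔ n ∈ A ω ∧ ∀ m, n < m → m ≤ n + h → m ∉ A ω := by
  unfold fev all free
  constructor
  · rintro ⟨h1, h2⟩
    exact ⟨h1 n (by simp), fun m h3 h4 => h2 m (mem_Ioc.2 ⟨h3, h4⟩)⟩
  · rintro ⟨h1, h3⟩
    refine ⟨?_, fun m hm => h3 m (mem_Ioc.1 hm).1 (mem_Ioc.1 hm).2⟩
    intro i hi
    rw [mem_singleton] at hi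
    rw [hi]
    exact h1

omit [MeasurableSpace Ω] in
theorem F_gev {S : Set ℕ} {t n : ℕ} (hS : ∀ m, n ≤ m → m ≤ n + t → m ∈ S) : MeasurableSet[F A S] (gev A t n) := by
  unfold gev
  refine MeasurableSet.inter (F_all ?_) (F_free ?_)
  · intro i hi
    rw [mem_insert, mem_singleton] at hi
    rcases hi with rfl | rfl
    · exact hS _ le_rfl (Nat.le_add_right _ _)
    · exact hS _ (Nat.le_add_right _ _) le_rfl
  · intro i hi
    rw [mem_Ioo] at hi
    exact hS i hi.1.le hi.2.le

omit [MeasurableSpace Ω] in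
theorem F_fev {S : Set ℕ} {h n : ℕ} (hS : ∀ m, n ≤ m → m ≤ n + h → m ∈ S) : MeasurableSet[F A S] (fev A h n) := by
  unfold fev
  refine MeasurableSet.inter (F_all ?_) (F_free ?_)
  · intro i hi
    rw [mem_singleton] at hi
    rw [hi]
    exact hS _ le_rfl (Nat.le_add_right _ _)
  · intro i hi
    rw [mem_Ioc] at hi
    exact hS i hi.1.le hi.2

variable {p : ℕ → ℝ}

theorem meas_gev (hA : IsModel μ p A) (t n : ℕ) : MeasurableSet (gev A t n) :=
  F_le hA Set.univ _ (F_gev (fun _ _ _ => Set.mem_univ _))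

theorem meas_fev (hA : IsModel μ p A) (h n : ℕ) : MeasurableSet (fev A h n) :=
  F_le hA Set.univ _ (F_fev (fun _ _ _ => Set.mem_univ _))

theorem real_gev (hA : IsModel μ p A) {t n : ℕ} (ht : 1 ≤ t) :
    μ.real (gev A t n) = p n * p (n + t) * ∏ m ∈ Ioo n (n + t), (1 - p m) := by
  unfold gev
  rw [indep_real hA (S := ({n, n + t} : Set ℕ)) (T := Set.Ioo n (n + t)) ?_ (F_all ?_) (F_free ?_),
    real_all hA, real_free hA, prod_pair (by omega)]
  · rw [Set.disjoint_left]
    rintro a ha hb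
    rw [Set.mem_insert_iff, Set.mem_singleton_iff] at ha
    rw [Set.mem_Ioo] at hb
    omega
  · intro i hi
    simpa using hi
  · intro i hi
    simpa using hi

theorem real_fev (hA : IsModel μ p A) {h n : ℕ} :
    μ.real (fev A h n) = p n * ∏ m ∈ Ioc n (n + h), (1 - p m) := by
  unfold fev
  rw [indep_real hA (S := ({n} : Set ℕ)) (T := Set.Ioc n (n + h)) ?_ (F_all ?_) (F_free ?_),
    real_all hA, real_free hA, prod_singleton]
  · rw [Set.disjoint_left]
    rintro a ha hb
    rw [Set.mem_singleton_iff] at ha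
    rw [Set.mem_Ioc] at hb
    omega
  · intro i hi
    simpa using hi
  · intro i hi
    simpa using hi

/-- Elements followed by a gap of more than `h` are negatively correlated. -/
theorem neg_fev (hA : IsModel μ p A) (h : ℕ) {n m : ℕ} (hnm : n ≠ m) :
    μ.real (fev A h n ∩ fev A h m) ≤ μ.real (fev A h n) * μ.real (fev A h m) := by
  have key : ∀ n m : ℕ, n < m → μ.real (fev A h n ∩ fev A h m) ≤ μ.real (fev A h n) * μ.real (fev A h m) := by
    intro n m hlt
    by_cases hm : m ≤ n + h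
    · have h1 : fev A h n ∩ fev A h m = ∅ := by
        rw [Set.eq_empty_iff_forall_notMem]
        rintro ω ⟨h1, h2⟩
        rw [mem_fev] at h1 h2
        exact h1.2 m hlt hm h2.1
      rw [h1, measureReal_empty]
      positivity
    · refine le_of_eq (indep_real hA (S := Set.Icc n (n + h)) (T := Set.Icc m (m + h)) ?_ (F_fev ?_) (F_fev ?_))
      · rw [Set.disjoint_left]
        rintro a ha hb
        rw [Set.mem_Icc] at ha hb
        omega
      · intro a h1 h2
        exact ⟨h1, h2⟩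
      · intro a h1 h2
        exact ⟨h1, h2⟩
  rcases lt_or_gt_of_ne hnm with h1 | h1
  · exact key n m h1
  · rw [Set.inter_comm, mul_comm]
    exact key m n h1

/-- `cc Q {0} = φ(Q)` -/
theorem cc_zero (Q : ℕ) : cc Q {0} = Nat.totient Q := by
  unfold cc Nat.totient
  congr 1
  apply filter_congr
  intro n _
  unfold Good
  simp [Nat.coprime_comm]

theorem sing0 {Q : ℕ} (hQ : 1 ≤ Q) : (cc Q {0} : ℝ) / Q = 1 / qq Q := by
  rw [cc_zero]
  unfold qq
  rw [one_div_div]

theorem good_zero {Q n : ℕ} : Good Q {0} n ↔ n.Coprime Q := by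
  unfold Good
  simp

/-- there is a residue class with both members coprime -/
theorem cc_pair {Q t : ℕ} (hQ : 1 ≤ Q) (ht : Even t) : 1 ≤ cc Q {0, t} := by
  have key : ∀ Q : ℕ, 1 ≤ Q → ∃ n : ℕ, n.Coprime Q ∧ (n + t).Coprime Q := by
    intro Q hQ
    -- choose for every prime divisor a class
    have hc : ∀ p : ℕ, p.Prime → ∃ a : ℕ, ¬ p ∣ a ∧ ¬ p ∣ a + t := by
      intro p hp
      by_contra hcon
      push Not at hcon
      by_cases h2 : p = 2
      · subst h2
        have h3 := hcon 1 (by norm_num)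
        obtain ⟨s, hs⟩ := ht
        omega
      · have hp2 := hp.two_le
        have h1 := hcon 1 (by intro h; exact hp.one_lt.ne' (Nat.dvd_one.1 h))
        have h3 := hcon 2 (by
          intro h
          exact h2 ((Nat.prime_dvd_prime_iff_eq hp Nat.prime_two).1 h))
        have h4 : p ∣ 1 := by
          have := (Nat.dvd_sub h3 h1)
          rwa [show 2 + t - (1 + t) = 1 by omega] at this
        exact hp.one_lt.ne' (Nat.dvd_one.1 h4)
    choose! a ha1 ha2 using hc
    have hcop : Set.Pairwise ((Q.primeFactors : Finset ℕ) : Set ℕ) (Function.onFun Nat.Coprime (fun p => p)) := by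
      intro p hp q hq hne
      exact (Nat.coprime_primes (Nat.prime_of_mem_primeFactors hp) (Nat.prime_of_mem_primeFactors hq)).2 hne
    obtain ⟨k, hk⟩ := Nat.chineseRemainderOfFinset (fun p => a p) (fun p => p) Q.primeFactors
      (fun p hp => (Nat.prime_of_mem_primeFactors hp).ne_zero) hcop
    refine ⟨k, ?_, ?_⟩
    · rw [Nat.coprime_iff_gcd_eq_one]
      by_contra hne
      obtain ⟨p, hp, hd⟩ := Nat.exists_prime_and_dvd hne
      have h1 : p ∣ k := hd.trans (Nat.gcd_dvd_left _ _)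
      have h2 : p ∈ Q.primeFactors := Nat.mem_primeFactors.2 ⟨hp, hd.trans (Nat.gcd_dvd_right _ _), by omega⟩
      have h3 := hk p h2
      exact ha1 p hp ((Nat.ModEq.dvd_iff h3 dvd_rfl).1 h1)
    · rw [Nat.coprime_iff_gcd_eq_one]
      by_contra hne
      obtain ⟨p, hp, hd⟩ := Nat.exists_prime_and_dvd hne
      have h1 : p ∣ k + t := hd.trans (Nat.gcd_dvd_left _ _)
      have h2 : p ∈ Q.primeFactors := Nat.mem_primeFactors.2 ⟨hp, hd.trans (Nat.gcd_dvd_right _ _), by omega⟩
      have h3 := (hk p h2).add_right t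
      exact ha2 p hp ((Nat.ModEq.dvd_iff h3 dvd_rfl).1 h1)
  obtain ⟨n, h1, h2⟩ := key Q hQ
  unfold cc
  rw [Nat.one_le_iff_ne_zero, ← Nat.pos_iff_ne_zero, card_pos]
  refine ⟨n % Q, mem_filter.2 ⟨mem_range.2 (Nat.mod_lt _ hQ), ?_⟩⟩
  have h3 : Good Q {0, t} n := by
    intro h hh
    rw [mem_insert, mem_singleton] at hh
    rcases hh with rfl | rfl
    · exact h1
    · exact h2
  have h4 := (good_periodic Q {0, t}).map_mod_nat n
  rw [h4]
  exact h3

/-- many good starts at mutual distance less than `t` -/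
theorem starts {Q t : ℕ} (hQ : 1 ≤ Q) (ht : Even t) (ht1 : 1 ≤ t) (u : ℕ) :
    ∃ S : Finset ℕ, S ⊆ Ico u (u + (t + Q)) ∧ (∀ n ∈ S, Good Q {0, t} n) ∧
      (∀ n ∈ S, ∀ m ∈ S, m < n + t) ∧ t + Q ≤ 4 * Q * S.card := by
  have hc := cc_pair hQ ht
  -- a good integer in the first `Q`
  obtain ⟨n0, hn0⟩ : ((Ico u (u + Q)).filter (Good Q {0, t})).Nonempty := by
    rw [← card_pos, count_block]
    exact hc
  rw [mem_filter, mem_Ico] at hn0
  refine ⟨(Ico n0 (n0 + t)).filter (Good Q {0, t}), ?_, ?_, ?_, ?_⟩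
  · intro m hm
    rw [mem_filter, mem_Ico] at hm
    rw [mem_Ico]
    omega
  · intro n hn
    exact (mem_filter.1 hn).2
  · intro n hn m hm
    rw [mem_filter, mem_Ico] at hn hm
    omega
  · have h1 := (count_bounds hQ {0, t} n0 t).1
    have h2 : 1 ≤ ((Ico n0 (n0 + t)).filter (Good Q {0, t})).card := by
      rw [Nat.one_le_iff_ne_zero, ← Nat.pos_iff_ne_zero, card_pos]
      exact ⟨n0, mem_filter.2 ⟨mem_Ico.2 ⟨le_rfl, by omega⟩, hn0.2⟩⟩
    obtain ⟨c, hcd⟩ : ∃ c, c = ((Ico n0 (n0 + t)).filter (Good Q {0, t})).card := ⟨_, rfl⟩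
    rw [← hcd] at h1 h2 ⊢
    by_cases htQ : t < Q
    · nlinarith
    · push Not at htQ
      have h3 : t / Q ≤ c := by
        calc t / Q = t / Q * 1 := (mul_one _).symm
          _ ≤ t / Q * cc Q {0, t} := Nat.mul_le_mul_left _ hc
          _ ≤ c := h1
      have h4 : t < (t / Q + 1) * Q := by
        have := Nat.lt_div_mul_add (a := t) (b := Q) (by omega)
        linarith [this, show (t / Q + 1) * Q = t / Q * Q + Q by ring]
      have h5 : (t / Q + 1) * Q ≤ (c + 1) * Q := Nat.mul_le_mul_right _ (by omega)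
      nlinarith

end Pool.Agent.Q107.MG
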