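import Pool.Agent.Q107.MG.Bd
import Pool.Agent.Q120.NC.Basic

/-!
# The expected number of elements
-/

set_option autoImplicit false

namespace Pool.Agent.Q107.MG

open Finset MeasureTheory ProbabilityTheory Filter Pool.Agent.Q120.GM

/-- the expected number of elements below `N` -/
noncomputable def lt (Q N : ℕ) : ℝ := ∑ n ∈ range N, level Q n

theorem lt_nonneg (Q N : ℕ) : 0 ≤ lt Q N := sum_nonneg (fun n _ => level_nonneg Q n)

theorem lt_le {Q : ℕ} (hQ : 1 ≤ Q) : ∃ C : ℝ, 0 < C ∧ ∀ᶠ N : ℕ in atTop, lt Q N ≤ C * (N / Real.log N) := by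
  have hq := qq_pos hQ
  refine ⟨2 + 2 * qq Q, by positivity, ?_⟩
  have h1 : ∀ᶠ N : ℕ in atTop, Real.log N ≤ 1 * (N : ℝ) ^ (1 / 2 : ℝ) := by
    have h2 := (isLittleO_log_rpow_atTop (show (0 : ℝ) < 1 / 2 by norm_num)).def one_pos
    filter_upwards [tendsto_natCast_atTop_atTop.eventually h2, eventually_ge_atTop 1] with N h3 h4
    rw [Real.norm_eq_abs, Real.norm_eq_abs, abs_of_nonneg (Real.log_natCast_nonneg N),
      abs_of_nonneg (by positivity)] at h3
    exact h3
  filter_upwards [h1, eventually_ge_atTop 4] with N h1 h4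
  have hN : (4 : ℝ) ≤ N := by exact_mod_cast h4
  have hl : 0 < Real.log N := Real.log_pos (by linarith)
  obtain ⟨r, hr⟩ : ∃ r : ℝ, r = (N : ℝ) ^ (1 / 2 : ℝ) := ⟨_, rfl⟩
  have hr2 : r * r = N := by
    rw [hr, ← Real.rpow_add (by linarith)]
    norm_num
  have hr0 : 0 < r := by rw [hr]; positivity
  have hlr : Real.log r = Real.log N / 2 := by
    rw [hr, Real.log_rpow (by linarith)]
    ring
  unfold lt
  have h5 : ∀ n ∈ range N, level Q n ≤ (if (n : ℝ) < r then 1 else 0) + 2 * qq Q / Real.log N := by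
    intro n hn
    split_ifs with h6
    · have := level_le_one Q n
      have h7 : 0 ≤ 2 * qq Q / Real.log N := by positivity
      linarith
    · push Not at h6
      have h7 := level_le (Q := Q) (m := n) (x := r) (by rw [hlr]; linarith) hr0 h6
      rw [hlr] at h7
      rw [zero_add]
      refine h7.trans (le_of_eq ?_)
      field_simp
  refine (sum_le_sum h5).trans ?_
  rw [sum_add_distrib, sum_const, card_range, nsmul_eq_mul]
  have h6 : ∑ n ∈ range N, (if (n : ℝ) < r then (1 : ℝ) else 0) ≤ 2 * (N / Real.log N) := by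
    rw [← sum_filter, sum_const, nsmul_eq_mul, mul_one]
    have h7 : (range N).filter (fun n : ℕ => (n : ℝ) < r) ⊆ range ⌈r⌉₊ := by
      intro n hn
      rw [mem_filter] at hn
      rw [mem_range]
      exact_mod_cast Nat.lt_ceil.2 hn.2
    have h8 : (((range N).filter (fun n : ℕ => (n : ℝ) < r)).card : ℝ) ≤ ⌈r⌉₊ := by
      have := card_le_card h7
      rw [card_range] at this
      exact_mod_cast this
    refine h8.trans ((Nat.ceil_lt_add_one hr0.le).le.trans ?_)
    have h9 : r ≤ N / Real.log N := by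
      rw [le_div_iff₀ hl]
      rw [one_mul, ← hr] at h1
      calc r * Real.log N ≤ r * r := mul_le_mul_of_nonneg_left h1 hr0.le
        _ = N := hr2
    have h10 : 1 ≤ r := by
      by_contra hcon
      push Not at hcon
      nlinarith
    linarith
  have h7 : (N : ℝ) * (2 * qq Q / Real.log N) = 2 * qq Q * (N / Real.log N) := by ring
  rw [h7]
  linarith

theorem le_lt {Q : ℕ} (hQ : 1 ≤ Q) : ∃ c : ℝ, 0 < c ∧ ∀ᶠ N : ℕ in atTop, c * (N / Real.log N) ≤ lt Q N := by
  have hq := qq_pos hQ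
  refine ⟨1 / 4, by norm_num, ?_⟩
  have hlog : Tendsto (fun N : ℕ => Real.log (N : ℝ)) atTop atTop :=
    Real.tendsto_log_atTop.comp tendsto_natCast_atTop_atTop
  filter_upwards [hlog.eventually_ge_atTop (qq Q + 2), eventually_ge_atTop (8 * Q + 8)] with N h1 h2
  have h2' : (8 : ℝ) * Q + 8 ≤ N := by exact_mod_cast h2
  have hN0 : (0 : ℝ) < N := by
    have : (0 : ℝ) ≤ Q := Nat.cast_nonneg Q
    linarith
  obtain ⟨a, ha⟩ : ∃ a, a = N / 2 := ⟨_, rfl⟩
  obtain ⟨w, hw⟩ : ∃ w, N = a + w := ⟨N - a, by omega⟩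
  have ha1 : (N : ℝ) / 2 - 1 ≤ a ∧ (a : ℝ) ≤ N / 2 := by
    have h3 : 2 * a ≤ N ∧ N ≤ 2 * a + 1 := by omega
    have h4 : (2 : ℝ) * a ≤ N := by exact_mod_cast h3.1
    have h5 : (N : ℝ) ≤ 2 * a + 1 := by exact_mod_cast h3.2
    constructor <;> linarith
  have hla : Real.log N - 2 ≤ Real.log a := by
    have h3 : (N : ℝ) / 4 ≤ a := by
      have : (0 : ℝ) ≤ Q := Nat.cast_nonneg Q
      linarith [ha1.1]
    have h4 : Real.log ((N : ℝ) / 4) ≤ Real.log a := Real.log_le_log (by positivity) h3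
    rw [Real.log_div (by positivity) (by norm_num)] at h4
    have h5 : Real.log 4 ≤ 2 := by
      rw [show (4 : ℝ) = 2 ^ 2 by norm_num, Real.log_pow]
      have := Real.log_two_lt_d9
      push_cast
      linarith
    linarith
  have h3 : ∑ m ∈ (Ico a (a + w)).filter (Good Q {0}), level Q m ≤ lt Q N := by
    unfold lt
    apply sum_le_sum_of_subset_of_nonneg
    · intro m hm
      rw [mem_filter, mem_Ico] at hm
      rw [mem_range]
      omega
    · intro m _ _
      exact level_nonneg Q m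
  refine le_trans ?_ h3
  have ha0 : (0 : ℝ) < a := by
    have : (0 : ℝ) ≤ Q := Nat.cast_nonneg Q
    linarith [ha1.1]
  have h4 : ∀ m ∈ (Ico a (a + w)).filter (Good Q {0}), qq Q / Real.log N ≤ level Q m := by
    intro m hm
    rw [mem_filter, mem_Ico, good_zero] at hm
    refine le_level (x := a) (by linarith) (by linarith) ha0 ?_ ?_ hm.2
    · exact_mod_cast hm.1.1
    · exact_mod_cast (by omega : m ≤ N)
  refine le_trans ?_ (sum_le_sum h4)
  rw [sum_const, nsmul_eq_mul]
  have h5 := (count_real hQ {0} a w).1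
  rw [sing0 hQ] at h5
  have hl0 : 0 < Real.log N := by linarith
  have h6 : (0 : ℝ) ≤ qq Q / Real.log N := by positivity
  refine le_trans ?_ (mul_le_mul_of_nonneg_right h5 h6)
  have hw' : (w : ℝ) = N - a := by
    have : (N : ℝ) = a + w := by exact_mod_cast hw
    linarith
  have h7 : ((w : ℝ) - Q) * (1 / qq Q) * (qq Q / Real.log N) = ((w : ℝ) - Q) / Real.log N := by
    field_simp
  rw [h7, show (1 : ℝ) / 4 * (N / Real.log N) = (N / 4) / Real.log N by ring]
  apply div_le_div_of_nonneg_right _ hl0.le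
  rw [hw']
  have : (0 : ℝ) ≤ Q := Nat.cast_nonneg Q
  linarith [ha1.2]

end Pool.Agent.Q107.MG
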