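import Pool.Agent.Q107.MG.Low

/-!
# Some even number of the right size occurs fewer than `K` times
-/

set_option autoImplicit false

namespace Pool.Agent.Q107.MG

open Finset MeasureTheory ProbabilityTheory Filter Pool.Agent.Q120.GM Pool.Agent.Q120.NC

variable {Ω : Type*} [MeasurableSpace Ω] {μ : Measure Ω} [IsProbabilityMeasure μ] {A : Ω → Set ℕ}

theorem markov2 {E : ℕ → Set Ω} (hE : ∀ n, MeasurableSet (E n))
    (hneg : ∀ n m, n ≠ m → μ.real (E n ∩ E m) ≤ μ.real (E n) * μ.real (E m)) (N : ℕ) {s : ℝ} (hs : 0 < s) :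
    μ.real {ω | s ≤ |cnt E N ω - tot μ E N|} ≤ tot μ E N / s ^ 2 := by
  obtain ⟨h1, h2⟩ := second_moment hE hneg N
  have h3 := mul_meas_ge_le_integral_of_nonneg (μ := μ) (f := fun ω => (cnt E N ω - tot μ E N) ^ 2)
    (Eventually.of_forall (fun ω => sq_nonneg _)) h1 (s ^ 2)
  have h4 : {ω | s ≤ |cnt E N ω - tot μ E N|} ⊆ {ω | s ^ 2 ≤ (cnt E N ω - tot μ E N) ^ 2} := by
    intro ω hω
    have hω' : s ≤ |cnt E N ω - tot μ E N| := hω
    show s ^ 2 ≤ (cnt E N ω - tot μ E N) ^ 2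
    rw [← sq_abs (cnt E N ω - tot μ E N)]
    exact pow_le_pow_left₀ hs.le hω' 2
  have h5 : μ.real {ω | s ≤ |cnt E N ω - tot μ E N|} ≤
      μ.real {ω | s ^ 2 ≤ (cnt E N ω - tot μ E N) ^ 2} := measureReal_mono h4
  rw [le_div_iff₀ (by positivity), mul_comm]
  exact (mul_le_mul_of_nonneg_left h5 (sq_nonneg _)).trans (h3.trans h2)

/-- the expected number of gaps larger than `ps (2 - e) l L` -/
theorem tot_bound {Q : ℕ} (hA : IsModel μ (level Q) A) (hQ : 1 ≤ Q) {e : ℝ} (he : e ≤ 1) :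
    ∃ C : ℝ, 0 < C ∧ ∀ᶠ k : ℕ in atTop, ∀ K : ℕ, 1 ≤ K →
      Real.log ((2 : ℝ) ^ k) ≤ ps (2 - e) (Real.log K) (Real.log ((2 : ℝ) ^ k)) →
      tot μ (fev A ⌈ps (2 - e) (Real.log K) (Real.log ((2 : ℝ) ^ k))⌉₊) (2 ^ k + 1) ≤
        C * K * Real.log ((2 : ℝ) ^ k) ^ (1 - e) := by
  have hq := qq_pos hQ
  obtain ⟨C, hC, h1⟩ := lt_le hQ
  -- a constant start
  obtain ⟨m0, hm0⟩ : ∃ m0 : ℕ, qq Q ≤ Real.log m0 ∧ 1 ≤ Real.log m0 ∧ 1 ≤ m0 :=
    ((log_tendsto.eventually_ge_atTop (qq Q)).and ((log_tendsto.eventually_ge_atTop 1).and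
      (eventually_ge_atTop 1))).exists
  obtain ⟨D, hD⟩ : ∃ D : ℝ, D = m0 + Q := ⟨_, rfl⟩
  have hD0 : 0 ≤ D := by rw [hD]; positivity
  refine ⟨2 * C * Real.exp (D + 1), by positivity, ?_⟩
  have hL : Tendsto (fun k : ℕ => Real.log ((2 : ℝ) ^ k)) atTop atTop :=
    Real.tendsto_log_atTop.comp (tendsto_pow_atTop_atTop_of_one_lt (by norm_num))
  have h2k : ∀ᶠ k : ℕ in atTop, 4 * Real.log ((2 : ℝ) ^ k) ^ 2 ≤ (2 : ℝ) ^ k := by
    have h1 := (Real.isLittleO_pow_log_id_atTop (n := 2)).def (show (0 : ℝ) < 1 / 4 by norm_num)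
    filter_upwards [(tendsto_pow_atTop_atTop_of_one_lt (r := (2 : ℝ)) (by norm_num)).eventually h1] with k h2
    simp only [id, Real.norm_eq_abs] at h2
    rw [abs_of_nonneg (by positivity), abs_of_nonneg (by positivity)] at h2
    linarith
  have h2N : Tendsto (fun k : ℕ => 2 ^ k + 1) atTop (atTop : Filter ℕ) :=
    tendsto_atTop_mono (fun k => Nat.le_succ _) two_pow_tendsto
  filter_upwards [h2N.eventually h1, hL.eventually_ge_atTop 4, h2k, hL.eventually_ge_atTop D] with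
    k h3 h4 h5 hDL K hK hps
  have h6 := hDL.trans hps
  obtain ⟨L, hLd⟩ : ∃ L : ℝ, L = Real.log ((2 : ℝ) ^ k) := ⟨_, rfl⟩
  rw [← hLd] at h4 h5 h6 ⊢
  have hK1 : (1 : ℝ) ≤ K := by exact_mod_cast hK
  have hlK : 0 ≤ Real.log K := Real.log_nonneg hK1
  obtain ⟨X, hX⟩ : ∃ X : ℝ, X = (2 : ℝ) ^ k := ⟨_, rfl⟩
  have hXp : 0 < X := by rw [hX]; positivity
  rw [← hX] at h5
  have hLp : 0 < L := by linarith
  obtain ⟨P, hP⟩ : ∃ P : ℝ, P = ps (2 - e) (Real.log K) L := ⟨_, rfl⟩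
  obtain ⟨h, hh⟩ : ∃ h, h = ⌈ps (2 - e) (Real.log K) L⌉₊ := ⟨_, rfl⟩
  rw [← hh]
  rw [← hP] at h6 hh
  have hh1 : P ≤ h := by rw [hh]; exact Nat.le_ceil _
  have hhD : D ≤ h := h6.trans hh1
  have hm0h : m0 ≤ h := by
    have : (m0 : ℝ) ≤ h := by
      have : (0 : ℝ) ≤ Q := Nat.cast_nonneg _
      linarith
    exact_mod_cast this
  have hP0 : 0 ≤ P := hD0.trans h6
  have hLX : Real.log X = L := by rw [hLd, hX]
  have hh2 : (h : ℝ) ≤ 2 * L ^ 2 := by
    have h7 : (h : ℝ) ≤ P + 1 := by rw [hh]; exact (Nat.ceil_lt_add_one hP0).le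
    have h8 := le_sq (c := 2 - e) (X := L) (by linarith) hlK (by linarith)
    rw [← hP] at h8
    nlinarith
  have h7 : tot μ (fev A h) (2 ^ k + 1) ≤ lt Q (2 ^ k + 1) * Real.exp (-(((h : ℝ) - m0 - Q) / Real.log (X + h))) := by
    unfold tot lt
    rw [sum_mul]
    refine sum_le_sum (fun n hn => ?_)
    rw [mem_range] at hn
    refine fev_le hA hQ hm0.1 hm0.2.1 hm0.2.2 hm0h ?_
    rw [hX]
    exact_mod_cast (by omega : n ≤ 2 ^ k)
  refine h7.trans ?_
  have h8 : P / L - (D + 1) ≤ ((h : ℝ) - m0 - Q) / Real.log (X + h) := by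
    obtain ⟨d, hd⟩ : ∃ d : ℝ, d = (h : ℝ) / X := ⟨_, rfl⟩
    have hh0 : (0 : ℝ) ≤ h := Nat.cast_nonneg h
    have hd0 : 0 ≤ d := by rw [hd]; positivity
    have hlog : Real.log (X + h) ≤ L + d := by
      have h9 : X + h = X * (1 + d) := by rw [hd]; field_simp
      rw [h9, Real.log_mul hXp.ne' (by positivity), hLX]
      have := Real.log_le_sub_one_of_pos (show 0 < 1 + d by positivity)
      linarith
    have hlogL : L ≤ Real.log (X + h) := by
      rw [← hLX]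
      exact Real.log_le_log hXp (by linarith)
    have hK2 : (h : ℝ) - m0 - Q = h - D := by rw [hD]; ring
    rw [hK2]
    have h9 : ((h : ℝ) - D) / (L + d) ≤ ((h : ℝ) - D) / Real.log (X + h) :=
      div_le_div_of_nonneg_left (by linarith) (by linarith) hlog
    refine le_trans ?_ h9
    rw [le_div_iff₀ (by linarith)]
    have h10 : P / L ≤ (h : ℝ) / L := div_le_div_of_nonneg_right hh1 hLp.le
    have h11 : (h : ℝ) / L * d ≤ L := by
      rw [hd, div_mul_div_comm, div_le_iff₀ (by positivity)]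
      nlinarith
    have h13 : (P / L - (D + 1)) * (L + d) ≤ ((h : ℝ) / L - (D + 1)) * (L + d) :=
      mul_le_mul_of_nonneg_right (by linarith) (by linarith)
    refine h13.trans ?_
    have h14 : ((h : ℝ) / L - (D + 1)) * (L + d) = h + (h : ℝ) / L * d - (D + 1) * (L + d) := by
      field_simp
    nlinarith
  have h9 : Real.exp (-(((h : ℝ) - m0 - Q) / Real.log (X + h))) ≤ Real.exp (D + 1) * (K * L ^ (2 - e) / X) := by
    have h10 : Real.exp (-(P / L)) = K * L ^ (2 - e) / X := by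
      rw [hP, exp_ps hLp, Real.exp_log (by linarith)]
      nth_rewrite 1 [hLd]
      rw [Real.exp_neg, Real.exp_log (by positivity), ← hX]
      ring
    rw [← h10, ← Real.exp_add, Real.exp_le_exp]
    linarith
  have h10 : lt Q (2 ^ k + 1) ≤ C * (2 * X / L) := by
    refine h3.trans (mul_le_mul_of_nonneg_left ?_ hC.le)
    push_cast
    rw [← hX]
    have hX1 : 1 ≤ X := by rw [hX]; exact one_le_pow₀ (by norm_num)
    apply div_le_div₀ (by linarith) (by linarith) hLp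
    rw [hLd, ← hX]
    exact Real.log_le_log hXp (by linarith)
  calc lt Q (2 ^ k + 1) * Real.exp (-(((h : ℝ) - m0 - Q) / Real.log (X + h))) ≤
        (C * (2 * X / L)) * (Real.exp (D + 1) * (K * L ^ (2 - e) / X)) :=
        mul_le_mul h10 h9 (Real.exp_pos _).le (by positivity)
    _ = 2 * C * Real.exp (D + 1) * K * (L ^ (2 - e) / L) := by field_simp
    _ = 2 * C * Real.exp (D + 1) * K * L ^ (1 - e) := by
        congr 1
        rw [show (2 : ℝ) - e = (1 - e) + 1 by ring, Real.rpow_add hLp, Real.rpow_one]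
        field_simp

omit [MeasurableSpace Ω] in
/-- counting: if all even numbers of a window occur `K` times, then there are many long gaps -/
theorem count_long (h w X K : ℕ) (ω : Ω)
    (hall : ∀ s ∈ Ioc (h / 2) ((h + w) / 2), K ≤ occ (A ω) X (2 * s)) :
    (K : ℝ) * (w - 1) ≤ 2 * cnt (fev A h) (X + 1) ω := by
  classical
  obtain ⟨B, hB⟩ : ∃ B : ℕ → Finset ℕ, B = fun s => (range (X + 1)).filter (fun n => Cons (A ω) (2 * s) n) := ⟨_, rfl⟩
  have hBcard : ∀ s, (B s).card = occ (A ω) X (2 * s) := by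
    intro s
    unfold occ
    rw [← Set.ncard_coe_finset]
    congr 1
    ext n
    rw [hB, mem_coe, mem_filter, mem_range, Set.mem_ofPred_eq]
    constructor
    · rintro ⟨h1, h2⟩
      exact ⟨by omega, h2⟩
    · rintro ⟨h1, h2⟩
      exact ⟨by omega, h2⟩
  have hcard : K * (Ioc (h / 2) ((h + w) / 2)).card ≤ ((range (X + 1)).filter (fun n => ω ∈ fev A h n)).card := by
    calc K * (Ioc (h / 2) ((h + w) / 2)).card = ∑ s ∈ Ioc (h / 2) ((h + w) / 2), K := by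
          rw [sum_const, smul_eq_mul, mul_comm]
      _ ≤ ∑ s ∈ Ioc (h / 2) ((h + w) / 2), (B s).card := sum_le_sum (fun s hs => by
          rw [hBcard]
          exact hall s hs)
      _ = ((Ioc (h / 2) ((h + w) / 2)).biUnion B).card := by
          rw [card_biUnion]
          intro s hs s' hs' hne
          show Disjoint (B s) (B s')
          rw [Finset.disjoint_left]
          intro n hn hn'
          rw [hB, mem_filter] at hn hn'
          obtain ⟨_, h10, h11, h12⟩ := hn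
          obtain ⟨_, h10', h11', h12'⟩ := hn'
          rw [mem_coe, mem_Ioc] at hs hs'
          rcases lt_or_gt_of_ne hne with h13 | h13
          · exact h12' (n + 2 * s) (by omega) (by omega) h11
          · exact h12 (n + 2 * s') (by omega) (by omega) h11'
      _ ≤ _ := by
          apply card_le_card
          intro n hn
          rw [mem_biUnion] at hn
          obtain ⟨s, hs, hn⟩ := hn
          rw [hB, mem_filter] at hn
          rw [mem_Ioc] at hs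
          rw [mem_filter, mem_fev]
          exact ⟨hn.1, hn.2.1, fun m hm1 hm2 => hn.2.2.2 m hm1 (by omega)⟩
  have hcnt : cnt (fev A h) (X + 1) ω = (((range (X + 1)).filter (fun n => ω ∈ fev A h n)).card : ℝ) := by
    unfold cnt
    rw [card_filter]
    push_cast
    refine sum_congr rfl (fun n _ => ?_)
    by_cases h8 : ω ∈ fev A h n
    · rw [Set.indicator_of_mem h8, if_pos h8]
    · rw [Set.indicator_of_notMem h8, if_neg h8]
  have h8 : (w : ℝ) - 1 ≤ 2 * ((Ioc (h / 2) ((h + w) / 2)).card : ℝ) := by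
    rw [Nat.card_Ioc]
    have h9 : w ≤ 2 * ((h + w) / 2 - h / 2) + 1 := by omega
    have h10 : (w : ℝ) ≤ ((2 * ((h + w) / 2 - h / 2) + 1 : ℕ) : ℝ) := by exact_mod_cast h9
    rw [Nat.cast_add, Nat.cast_mul, Nat.cast_one] at h10
    push_cast at h10 ⊢
    linarith
  have h9 : (K : ℝ) * ((Ioc (h / 2) ((h + w) / 2)).card : ℝ) ≤ cnt (fev A h) (X + 1) ω := by
    rw [hcnt]
    exact_mod_cast hcard
  have h10 : (0 : ℝ) ≤ K := Nat.cast_nonneg K
  nlinarith

theorem up_pow {Q : ℕ} (hA : IsModel μ (level Q) A) (hQ : 1 ≤ Q) {e : ℝ} (he0 : 0 < e) (he : e ≤ 1) :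
    ∀ᵐ ω ∂μ, ∀ᶠ k : ℕ in atTop, ∀ i : ℕ, i ≤ k →
      Real.log ((2 : ℝ) ^ k) ≤ ps (2 - e) (Real.log ((2 : ℝ) ^ i)) (Real.log ((2 : ℝ) ^ k)) →
      ∃ t : ℕ, Even t ∧ 1 ≤ t ∧
      (t : ℝ) ≤ ps (2 - e) (Real.log ((2 : ℝ) ^ i)) (Real.log ((2 : ℝ) ^ k)) + 2 + Real.log ((2 : ℝ) ^ k) ∧
      occ (A ω) (2 ^ k) t < 2 ^ i := by
  classical
  obtain ⟨C, hC, h1⟩ := tot_bound hA hQ he
  have hL : Tendsto (fun k : ℕ => Real.log ((2 : ℝ) ^ k)) atTop atTop :=
    Real.tendsto_log_atTop.comp (tendsto_pow_atTop_atTop_of_one_lt (by norm_num))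
  have hsum : Summable (fun k : ℕ => 128 * C * Real.log 2 ^ (-(1 + e)) * (k : ℝ) ^ (-(1 + e))) :=
    (Real.summable_nat_rpow.2 (by linarith)).mul_left _
  have hsmall : ∀ᶠ k : ℕ in atTop, C * Real.log ((2 : ℝ) ^ k) ^ (1 - e) ≤ Real.log ((2 : ℝ) ^ k) / 8 := by
    have h2 : Tendsto (fun u : ℝ => C * u ^ (-e)) atTop (nhds 0) := by
      have := (tendsto_rpow_neg_atTop he0).const_mul C
      simpa using this
    filter_upwards [(h2.comp hL).eventually_le_const (show (0 : ℝ) < 1 / 8 by norm_num),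
      hL.eventually_ge_atTop 1] with k h3 h4
    simp only [Function.comp_apply] at h3
    obtain ⟨L, hLd⟩ : ∃ L : ℝ, L = Real.log ((2 : ℝ) ^ k) := ⟨_, rfl⟩
    rw [← hLd] at h3 h4 ⊢
    have hLp : 0 < L := by linarith
    rw [show (1 : ℝ) - e = 1 + -e by ring, Real.rpow_add hLp, Real.rpow_one]
    nlinarith
  obtain ⟨hf, hhf⟩ : ∃ hf : ℕ → ℕ → ℕ, hf = fun k i =>
    ⌈ps (2 - e) (Real.log ((2 ^ i : ℕ) : ℝ)) (Real.log ((2 : ℝ) ^ k))⌉₊ := ⟨_, rfl⟩
  have hcast : ∀ i : ℕ, Real.log ((2 ^ i : ℕ) : ℝ) = Real.log ((2 : ℝ) ^ i) := fun i => by push_cast; rfl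
  have h3 := bc (μ := μ) (B := fun k : ℕ => {ω | ∃ i : ℕ, i ≤ k ∧
      Real.log ((2 : ℝ) ^ k) ≤ ps (2 - e) (Real.log ((2 : ℝ) ^ i)) (Real.log ((2 : ℝ) ^ k)) ∧
      (2 : ℝ) ^ i * Real.log ((2 : ℝ) ^ k) / 8 ≤
      |cnt (fev A (hf k i)) (2 ^ k + 1) ω - tot μ (fev A (hf k i)) (2 ^ k + 1)|}) hsum (by
    filter_upwards [h1, hL.eventually_ge_atTop 1, eventually_ge_atTop 1] with k h4 h5 h6
    have hk0 : (0 : ℝ) < k := by exact_mod_cast h6
    have hl2 : 0 < Real.log 2 := Real.log_pos (by norm_num)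
    obtain ⟨L, hLd⟩ : ∃ L : ℝ, L = Real.log ((2 : ℝ) ^ k) := ⟨_, rfl⟩
    have hLp : 0 < L := by linarith
    have hLk : L = k * Real.log 2 := by rw [hLd, Real.log_pow]
    obtain ⟨J, hJ⟩ : ∃ J : Finset ℕ, J = (range (k + 1)).filter (fun i =>
      Real.log ((2 : ℝ) ^ k) ≤ ps (2 - e) (Real.log ((2 : ℝ) ^ i)) (Real.log ((2 : ℝ) ^ k))) := ⟨_, rfl⟩
    have hsub : {ω | ∃ i : ℕ, i ≤ k ∧
        Real.log ((2 : ℝ) ^ k) ≤ ps (2 - e) (Real.log ((2 : ℝ) ^ i)) (Real.log ((2 : ℝ) ^ k)) ∧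
        (2 : ℝ) ^ i * Real.log ((2 : ℝ) ^ k) / 8 ≤
        |cnt (fev A (hf k i)) (2 ^ k + 1) ω - tot μ (fev A (hf k i)) (2 ^ k + 1)|} ⊆
        ⋃ i ∈ J, {ω | (2 : ℝ) ^ i * L / 8 ≤
        |cnt (fev A (hf k i)) (2 ^ k + 1) ω - tot μ (fev A (hf k i)) (2 ^ k + 1)|} := by
      rintro ω ⟨i, hi1, hi2, hi3⟩
      rw [Set.mem_iUnion₂]
      refine ⟨i, ?_, ?_⟩
      · rw [hJ, mem_filter, mem_range]
        exact ⟨by omega, hi2⟩
      · rw [hLd]
        exact hi3
    refine (measureReal_mono hsub (measure_ne_top _ _)).trans ((measureReal_biUnion_finset_le _ _).trans ?_)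
    have h8 : ∀ i ∈ J, μ.real {ω | (2 : ℝ) ^ i * L / 8 ≤
        |cnt (fev A (hf k i)) (2 ^ k + 1) ω - tot μ (fev A (hf k i)) (2 ^ k + 1)|} ≤
        64 * C * L ^ (-(1 + e)) * (1 / 2 : ℝ) ^ i := by
      intro i hi
      rw [hJ, mem_filter, mem_range] at hi
      have h7 := markov2 (μ := μ) (E := fev A (hf k i)) (fun n => meas_fev hA _ n)
        (fun n m hnm => neg_fev hA _ hnm) (2 ^ k + 1) (s := (2 : ℝ) ^ i * L / 8) (by positivity)
      refine h7.trans ?_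
      have h9 := h4 (2 ^ i) Nat.one_le_two_pow (by rw [hcast]; exact hi.2)
      have h10 : tot μ (fev A (hf k i)) (2 ^ k + 1) ≤ C * (2 : ℝ) ^ i * L ^ (1 - e) := by
        rw [hhf, hLd]
        refine h9.trans (le_of_eq ?_)
        push_cast
        rfl
      refine (div_le_div_of_nonneg_right h10 (by positivity)).trans (le_of_eq ?_)
      have h11 : L ^ (-(1 + e)) = L ^ (1 - e) / L ^ 2 := by
        rw [show -(1 + e) = (1 - e) - 2 by ring, Real.rpow_sub hLp, Real.rpow_two]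
      rw [h11, one_div, inv_pow]
      field_simp
      norm_num
    refine (sum_le_sum h8).trans ?_
    have h9 : ∑ i ∈ J, 64 * C * L ^ (-(1 + e)) * (1 / 2 : ℝ) ^ i ≤
        ∑ i ∈ range (k + 1), 64 * C * L ^ (-(1 + e)) * (1 / 2 : ℝ) ^ i := by
      apply sum_le_sum_of_subset_of_nonneg
      · rw [hJ]
        exact filter_subset _ _
      · intro i _ _
        positivity
    refine h9.trans ?_
    rw [← mul_sum]
    have h10 := sum_geometric_two_le (k + 1)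
    have h11 : (0 : ℝ) ≤ 64 * C * L ^ (-(1 + e)) := by positivity
    refine (mul_le_mul_of_nonneg_left h10 h11).trans (le_of_eq ?_)
    have h12 : L ^ (-(1 + e)) = Real.log 2 ^ (-(1 + e)) * (k : ℝ) ^ (-(1 + e)) := by
      rw [hLk, Real.mul_rpow hk0.le hl2.le]
      ring
    rw [h12]
    ring)
  filter_upwards [h3] with ω hω
  filter_upwards [hω, h1, hsmall, hL.eventually_ge_atTop 16] with k h4 h5 h6 h7 i hik hps
  by_contra hcon
  apply h4
  refine ⟨i, hik, hps, ?_⟩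
  push Not at hcon
  have h8 := h5 (2 ^ i) Nat.one_le_two_pow (by rw [hcast]; exact hps)
  obtain ⟨L, hLd⟩ : ∃ L : ℝ, L = Real.log ((2 : ℝ) ^ k) := ⟨_, rfl⟩
  obtain ⟨h, hh⟩ : ∃ h, h = hf k i := ⟨_, rfl⟩
  have h8' : tot μ (fev A h) (2 ^ k + 1) ≤ (2 : ℝ) ^ i * (L / 8) := by
    have h9 : tot μ (fev A h) (2 ^ k + 1) ≤ C * (2 : ℝ) ^ i * L ^ (1 - e) := by
      rw [hh, hhf, hLd]
      refine h8.trans (le_of_eq ?_)
      push_cast
      rfl
    refine h9.trans ?_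
    rw [← hLd] at h6
    have h10 : (0 : ℝ) ≤ (2 : ℝ) ^ i := by positivity
    nlinarith
  rw [← hh, ← hLd]
  rw [← hLd] at hps hcon h7
  have hP0 : 0 ≤ ps (2 - e) (Real.log ((2 : ℝ) ^ i)) L := by linarith
  obtain ⟨w, hw⟩ : ∃ w, w = ⌊L⌋₊ := ⟨_, rfl⟩
  have hw1 : (w : ℝ) ≤ L := by rw [hw]; exact Nat.floor_le (by linarith)
  have hw2 : L < w + 1 := by rw [hw]; exact Nat.lt_floor_add_one L
  have hw3 : 1 ≤ w := by
    have : (1 : ℝ) ≤ w := by linarith
    exact_mod_cast this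
  have h9 := count_long (A := A) h w (2 ^ k) (2 ^ i) ω (by
    intro s hs
    rw [mem_Ioc] at hs
    refine hcon (2 * s) (even_two_mul s) (by omega) ?_
    have h8 : ((2 * s : ℕ) : ℝ) ≤ ((h + w : ℕ) : ℝ) := by exact_mod_cast (by omega)
    push_cast at h8 ⊢
    have h9 : (h : ℝ) ≤ ps (2 - e) (Real.log ((2 : ℝ) ^ i)) L + 1 := by
      rw [hh, hhf]
      simp only
      rw [hcast, ← hLd]
      exact (Nat.ceil_lt_add_one hP0).le
    linarith)
  push_cast at h9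
  have h10 := le_abs_self (cnt (fev A h) (2 ^ k + 1) ω - tot μ (fev A h) (2 ^ k + 1))
  have h11 : (0 : ℝ) < (2 : ℝ) ^ i := by positivity
  have h12 : (2 : ℝ) ^ i * (L - 2) ≤ (2 : ℝ) ^ i * (w - 1) := mul_le_mul_of_nonneg_left (by linarith) h11.le
  have h13 : (2 : ℝ) ^ i * (L / 2) ≤ (2 : ℝ) ^ i * (L - 2) := mul_le_mul_of_nonneg_left (by linarith) h11.le
  linarith

/-- **Some even number of the right size occurs fewer than `K` times.** -/
theorem upper {Q : ℕ} (hA : IsModel μ (level Q) A) (hQ : 1 ≤ Q) {e : ℝ} (he0 : 0 < e) (he : e ≤ 1) :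
    ∀ᵐ ω ∂μ, ∀ᶠ x : ℕ in atTop, ∀ K : ℕ, 1 ≤ K → Real.log K + 3 * Real.log (Real.log x) ≤ Real.log x →
      ∃ t : ℕ, Even t ∧ 1 ≤ t ∧ (t : ℝ) ≤ ps (2 - e) (Real.log K) (Real.log x) ∧ occ (A ω) x t < K := by
  filter_upwards [up_pow hA hQ (show 0 < e / 2 by linarith) (by linarith)] with ω hω
  have h1 : Tendsto (fun x : ℕ => Nat.log 2 x + 1) atTop atTop :=
    tendsto_atTop_mono (fun k => Nat.le_succ _) natlog_tendsto
  filter_upwards [h1.eventually hω, eventually_ge_atTop 1,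
    log_tendsto.eventually (step (c := 2 - e) (d := 2 - e / 2) (by linarith) (by linarith)),
    log_tendsto.eventually_ge_atTop 8,
    (Real.tendsto_log_atTop.comp log_tendsto).eventually_ge_atTop 8] with x h2 h3 h4 hl8 hll8 K hK hKx
  simp only [Function.comp_apply] at hll8
  have h5 : 2 ^ Nat.log 2 x ≤ x := Nat.pow_log_le_self 2 (by omega)
  have h6 : x < 2 ^ (Nat.log 2 x + 1) := Nat.lt_pow_succ_log_self (by norm_num) x
  have hx0 : (0 : ℝ) < x := by exact_mod_cast h3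
  have h7 : ((2 ^ Nat.log 2 x : ℕ) : ℝ) ≤ x := by exact_mod_cast h5
  have h8 : (x : ℝ) ≤ ((2 ^ (Nat.log 2 x + 1) : ℕ) : ℝ) := by exact_mod_cast h6.le
  push_cast at h7 h8
  have hln2 := Real.log_two_lt_d9
  have hKr : (1 : ℝ) ≤ K := by exact_mod_cast hK
  obtain ⟨i, hi⟩ : ∃ i, i = Nat.log 2 K := ⟨_, rfl⟩
  have hi1 : 2 ^ i ≤ K := by rw [hi]; exact Nat.pow_log_le_self 2 (by omega)
  have hi2 : K < 2 ^ (i + 1) := by rw [hi]; exact Nat.lt_pow_succ_log_self (by norm_num) K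
  have hi1' : ((2 ^ i : ℕ) : ℝ) ≤ K := by exact_mod_cast hi1
  have hi2' : (K : ℝ) ≤ ((2 ^ (i + 1) : ℕ) : ℝ) := by exact_mod_cast hi2.le
  push_cast at hi1' hi2'
  have hli0 : 0 ≤ Real.log ((2 : ℝ) ^ i) := Real.log_nonneg (one_le_pow₀ (by norm_num))
  have hli1 : Real.log ((2 : ℝ) ^ i) ≤ Real.log K := Real.log_le_log (by positivity) hi1'
  have hli2 : Real.log K ≤ Real.log ((2 : ℝ) ^ i) + 1 := by
    refine (Real.log_le_log (by linarith) hi2').trans ?_
    rw [pow_succ, Real.log_mul (by positivity) (by norm_num)]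
    linarith
  obtain ⟨Y, hY⟩ : ∃ Y : ℝ, Y = Real.log ((2 : ℝ) ^ (Nat.log 2 x + 1)) := ⟨_, rfl⟩
  have hY1 : Real.log x ≤ Y := by rw [hY]; exact Real.log_le_log hx0 h8
  have hY2 : Y ≤ Real.log x + 1 := by
    rw [hY, pow_succ, Real.log_mul (by positivity) (by norm_num)]
    have h11 := Real.log_le_log (by positivity) h7
    linarith
  have h9 := h4 Y (Real.log K) (Real.log ((2 : ℝ) ^ i)) hY1 hY2 hli0 hli2
  have hllY : Real.log Y ≤ Real.log (Real.log x) + 1 := by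
    have h10 : Real.log Y ≤ Real.log (Real.log x * 2) := Real.log_le_log (by linarith) (by linarith)
    rw [Real.log_mul (by linarith) (by norm_num)] at h10
    linarith
  have hps : Y ≤ ps (2 - e / 2) (Real.log ((2 : ℝ) ^ i)) Y := by
    unfold ps
    have h10 : 3 * Real.log Y - 3 ≤ Y - Real.log ((2 : ℝ) ^ i) := by linarith
    have h11 : 0 ≤ Real.log Y := Real.log_nonneg (by linarith)
    have h12 : 8 ≤ Real.log Y := hll8.trans (Real.log_le_log (by linarith) hY1)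
    have h13 : Y * (3 * Real.log Y - 3) ≤ Y * (Y - Real.log ((2 : ℝ) ^ i)) :=
      mul_le_mul_of_nonneg_left h10 (by linarith)
    have h14 : (2 - e / 2) * (Y * Real.log Y) ≤ 2 * (Y * Real.log Y) :=
      mul_le_mul_of_nonneg_right (by linarith) (mul_nonneg (by linarith) h11)
    have h15 : Y * 4 ≤ Y * (Real.log Y - 3) := mul_le_mul_of_nonneg_left (by linarith) (by linarith)
    nlinarith
  have hik : i ≤ Nat.log 2 x + 1 := by
    by_contra hcon
    push Not at hcon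
    have h12 : Y ≤ Real.log ((2 : ℝ) ^ i) := by
      rw [hY]
      exact Real.log_le_log (by positivity) (pow_le_pow_right₀ (by norm_num) hcon.le)
    linarith
  obtain ⟨t, ht1, ht2, ht3, ht4⟩ := h2 i hik (by rw [← hY]; exact hps)
  rw [← hY] at ht3
  refine ⟨t, ht1, ht2, by linarith, ?_⟩
  exact lt_of_le_of_lt (occ_mono h6.le) (lt_of_lt_of_le ht4 hi1)

end Pool.Agent.Q107.MG
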